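import Pool.Agent.Lib.MP_0a9719_co_Fan.CfSeq

/-! MP_0a9719_co_Fan, module CfCore: in a large graph in which every vertex has at most
`q < n / r` non-neighbours (itself included) some neighbourhood contains `k` disjoint cliques
with `r` vertices. -/

namespace MP_0a9719_co_Fan

open Finset

variable {V : Type*} [DecidableEq V]

/-- the size of the exceptional sets -/
def cK (r k : ℕ) : ℕ := r * k

def cL (r k : ℕ) : ℕ := 2 * r * cK r k + 2 * cK r k

def cD (r k : ℕ) : ℕ := cL r k + 3 * cK r k

def cB (r k : ℕ) : ℕ := cL r k + cK r k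

def cQ (r k : ℕ) : ℕ :=
  (cK r k + cB r k) * (cD r k + 1) + r * cB r k + cB r k + 2 * cK r k + r * cK r k + cL r k +
    2 * cK r k

/-- choice of the clique `v 0, .., v (m-1)`. -/
theorem build (H : SimpleGraph V) (X : Finset V) (r q K : ℕ) (U : V → Finset V)
    (hq : r * q < X.card) (hdeg : ∀ x ∈ X, (ms H X x).card ≤ q) (hU : ∀ x, (U x).card ≤ K)
    (hK : r * K ≤ q) (m : ℕ) (hm : m ≤ r) :
    ∃ v : ℕ → V, (∀ i, i < m → v i ∈ X) ∧
      ∀ i j, i < j → j < m → H.Adj (v i) (v j) ∧ v j ∉ U (v i) := by
  induction m with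
  | zero =>
    obtain ⟨x, -⟩ : X.Nonempty := card_pos.1 (by omega)
    exact ⟨fun _ => x, fun i hi => absurd hi (by omega), fun i j _ hj => absurd hj (by omega)⟩
  | succ m ih =>
    obtain ⟨v, hv1, hv2⟩ := ih (by omega)
    have hW : ((range m).biUnion (fun i => ms H X (v i) ∪ U (v i))).card < X.card := by
      refine lt_of_le_of_lt ?_ hq
      refine card_biUnion_le.trans ((sum_le_card_nsmul _ _ (q + K) ?_).trans ?_)
      · intro i hi
        exact (card_union_le _ _).trans
          (Nat.add_le_add (hdeg _ (hv1 i (mem_range.1 hi))) (hU _))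
      · rw [smul_eq_mul, card_range]
        have h1 : m * K ≤ r * K := Nat.mul_le_mul_right _ (by omega)
        have h2 : (m + 1) * q ≤ r * q := Nat.mul_le_mul_right _ hm
        calc m * (q + K) = m * q + m * K := by ring
          _ ≤ m * q + q := by omega
          _ = (m + 1) * q := by ring
          _ ≤ r * q := h2
    obtain ⟨z, hzX, hz⟩ := exists_mem_notMem_of_card_lt_card hW
    have hz1 : ∀ i, i < m → H.Adj (v i) z ∧ z ∉ U (v i) := by
      intro i hi
      constructor
      · by_contra hcon
        exact hz (mem_biUnion.2 ⟨i, mem_range.2 hi, mem_union_left _ (mem_ms.2 ⟨hzX, hcon⟩)⟩)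
      · intro hcon
        exact hz (mem_biUnion.2 ⟨i, mem_range.2 hi, mem_union_right _ hcon⟩)
    refine ⟨fun i => if i = m then z else v i, fun i hi => ?_, fun i j hij hj => ?_⟩
    · by_cases h : i = m
      · simp only [h, if_true]
        exact hzX
      · simp only [h, if_false]
        exact hv1 i (by omega)
    · have hi : i ≠ m := by omega
      by_cases h : j = m
      · simp only [h, hi, if_true, if_false]
        exact hz1 i (by omega)
      · simp only [h, hi, if_false]
        exact hv2 i j hij (by omega)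

theorem coreCl (H : SimpleGraph V) (X : Finset V) (r k q : ℕ) (hr : 2 ≤ r)
    (hq : r * q < X.card) (hdeg : ∀ x ∈ X, (ms H X x).card ≤ q) (hbig : cQ r k ≤ q) :
    ∃ x ∈ X, HasCl H (nb H X x) r k := by
  by_contra hcon
  push Not at hcon
  set K := cK r k with hK
  set L := cL r k with hL
  set D := cD r k with hD
  set b2 := cB r k with hb2
  have hLv : L = 2 * r * K + 2 * K := rfl
  have hDv : D = L + 3 * K := rfl
  have hb2v : b2 = L + K := rfl
  have hbv : cQ r k = (K + b2) * (D + 1) + r * b2 + b2 + 2 * K + r * K + L + 2 * K := rfl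
  rw [hbv] at hbig
  have hbig1 : (K + b2) * (D + 1) ≤ q := by omega
  have hrK : r * K ≤ q := by omega
  -- exceptional sets
  have hU : ∀ x, ∃ U : Finset V, U.card ≤ K ∧ (x ∈ X → ∀ T : Finset V, T ⊆ nb H X x →
      Disjoint T U → ¬ H.IsNClique r T) := by
    intro x
    by_cases hx : x ∈ X
    · have h2 := mt (greedyCl H (nb H X x) r k) (hcon x hx)
      push Not at h2
      obtain ⟨U, hU, hU2⟩ := h2
      exact ⟨U, hU, fun _ T h3 h4 => hU2 T h3 h4⟩
    · exact ⟨∅, by simp, fun h => absurd h hx⟩
  choose U hUc hUe using hU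
  obtain ⟨v, hvX, hv⟩ := build H X r q K U hq hdeg hUc hrK r le_rfl
  have hadj : ∀ i j, i < r → j < r → i ≠ j → H.Adj (v i) (v j) := by
    intro i j hi hj hij
    rcases lt_or_gt_of_ne hij with h | h
    · exact (hv i j h hj).1
    · exact (hv j i h hi).1.symm
  set s : ℕ → ℕ := fun i => if i = 0 then 1 else 0 with hs
  have hsr : ∀ i, s i < r := by
    intro i
    simp only [hs]
    split_ifs <;> omega
  have hsi : ∀ i, s i ≠ i := by
    intro i
    simp only [hs]
    split_ifs with h <;> omega
  have hsU : ∀ i j, j < r → j ≠ i → j ≠ s i → v j ∉ U (v (s i)) := by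
    intro i j hj hji hjs
    refine (hv (s i) j ?_ hj).2
    simp only [hs] at hjs ⊢
    split_ifs at hjs ⊢ with h <;> omega
  set A : ℕ → Finset V := fun i => X.filter (fun z => z ∉ (range r).biUnion
    (fun j => if j = i then ∅ else ms H X (v j))) with hA
  have memA : ∀ i z, z ∈ A i ↔ z ∈ X ∧ ∀ j, j < r → j ≠ i → H.Adj (v j) z := by
    intro i z
    simp only [hA, mem_filter, mem_biUnion, mem_range, not_exists, not_and]
    constructor
    · rintro ⟨h1, h2⟩
      refine ⟨h1, fun j hj hji => ?_⟩
      have h3 := h2 j hj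
      rw [if_neg hji, mem_ms, not_and, not_not] at h3
      exact h3 h1
    · rintro ⟨h1, h2⟩
      refine ⟨h1, fun j hj => ?_⟩
      by_cases hji : j = i
      · rw [if_pos hji]
        exact notMem_empty _
      · rw [if_neg hji, mem_ms, not_and, not_not]
        exact fun _ => h2 j hj hji
  have hAX : ∀ i, A i ⊆ X := fun i => filter_subset _ _
  have hAc : ∀ i, i < r → q + 1 ≤ (A i).card := by
    intro i hi
    have h1 : X ⊆ A i ∪ (range r).biUnion (fun j => if j = i then ∅ else ms H X (v j)) := by
      intro z hz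
      by_cases h : z ∈ (range r).biUnion (fun j => if j = i then ∅ else ms H X (v j))
      · exact mem_union_right _ h
      · exact mem_union_left _ (mem_filter.2 ⟨hz, h⟩)
    have h2 : ((range r).biUnion (fun j => if j = i then ∅ else ms H X (v j))).card ≤
        (r - 1) * q := by
      refine card_biUnion_le.trans ?_
      rw [← sum_erase_add (range r) _ (mem_range.2 hi), if_pos rfl, card_empty, add_zero]
      refine (sum_le_card_nsmul _ _ q ?_).trans ?_
      · intro j hj
        rw [mem_erase, mem_range] at hj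
        rw [if_neg hj.1]
        exact hdeg _ (hvX j hj.2)
      · rw [smul_eq_mul, card_erase_of_mem (mem_range.2 hi), card_range]
    have h3 := (card_le_card h1).trans (card_union_le _ _)
    have h4 : (r - 1) * q + q = r * q := by
      obtain ⟨r', rfl⟩ : ∃ r', r = r' + 1 := ⟨r - 1, by omega⟩
      rw [Nat.add_sub_cancel]
      ring
    omega
  -- common neighbours of all `v j`
  have hZ : ∀ z ∈ X, (∀ j, j < r → H.Adj (v j) z) → z ∈ U (v 0) := by
    intro z hz hzv
    by_contra hzU
    have h1 : H.IsNClique ((range r).erase 0).card (((range r).erase 0).image v) :=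
      imgCl H v _ fun i hi j hj hij => hadj i j (mem_range.1 (mem_of_mem_erase hi))
        (mem_range.1 (mem_of_mem_erase hj)) hij
    have h2 := h1.insert (a := z) (fun w hw => by
      obtain ⟨j, hj, rfl⟩ := mem_image.1 hw
      exact (hzv j (mem_range.1 (mem_of_mem_erase hj))).symm)
    rw [card_erase_of_mem (mem_range.2 (by omega)), card_range, Nat.sub_add_cancel (by omega)]
      at h2
    refine hUe (v 0) (hvX 0 (by omega)) _ ?_ ?_ h2
    · intro w hw
      rcases mem_insert.1 hw with h | h
      · subst h
        exact mem_nb.2 ⟨hz, hzv 0 (by omega)⟩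
      · obtain ⟨j, hj, rfl⟩ := mem_image.1 h
        rw [mem_erase, mem_range] at hj
        exact mem_nb.2 ⟨hvX j hj.2, hadj 0 j (by omega) hj.2 (Ne.symm hj.1)⟩
    · rw [disjoint_left]
      intro w hw
      rcases mem_insert.1 hw with h | h
      · subst h
        exact hzU
      · obtain ⟨j, hj, rfl⟩ := mem_image.1 h
        rw [mem_erase, mem_range] at hj
        exact (hv 0 j (by omega) hj.2).2
  -- typical vertices
  have typ : ∀ i, i < r → ∀ a ∈ A i, a ∉ U (v (s i)) →
      (nb H (A i) a).card ≤ K ∧ (ms H X a \ A i).card ≤ K := by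
    intro i hi a ha haU
    have haX := hAX i ha
    have hav := (memA i a).1 ha
    have h1 : (nb H (A i) a).card ≤ K := by
      refine (card_le_card fun z hz => ?_).trans (hUc (v (s i)))
      by_contra hzU
      rw [mem_nb] at hz
      have hzv := (memA i z).1 hz.1
      have h1 : H.IsNClique (((range r).erase i).erase (s i)).card
          ((((range r).erase i).erase (s i)).image v) :=
        imgCl H v _ fun i' hi' j hj hij =>
          hadj i' j (mem_range.1 (mem_of_mem_erase (mem_of_mem_erase hi')))
            (mem_range.1 (mem_of_mem_erase (mem_of_mem_erase hj))) hij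
      have h2 := h1.insert (a := a) (fun w hw => by
        obtain ⟨j, hj, rfl⟩ := mem_image.1 hw
        rw [mem_erase, mem_erase, mem_range] at hj
        exact (hav.2 j hj.2.2 hj.2.1).symm)
      have h3 := h2.insert (a := z) (fun w hw => by
        rcases mem_insert.1 hw with h | h
        · subst h
          exact hz.2.symm
        · obtain ⟨j, hj, rfl⟩ := mem_image.1 h
          rw [mem_erase, mem_erase, mem_range] at hj
          exact (hzv.2 j hj.2.2 hj.2.1).symm)
      have h4 : (((range r).erase i).erase (s i)).card + 1 + 1 = r := by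
        rw [card_erase_of_mem (mem_erase.2 ⟨hsi i, mem_range.2 (hsr i)⟩),
          card_erase_of_mem (mem_range.2 hi), card_range]
        omega
      rw [h4] at h3
      refine hUe (v (s i)) (hvX _ (hsr i)) _ ?_ ?_ h3
      · intro w hw
        rcases mem_insert.1 hw with h | h
        · subst h
          exact mem_nb.2 ⟨hzv.1, hzv.2 _ (hsr i) (hsi i)⟩
        rcases mem_insert.1 h with h | h
        · subst h
          exact mem_nb.2 ⟨haX, hav.2 _ (hsr i) (hsi i)⟩
        · obtain ⟨j, hj, rfl⟩ := mem_image.1 h
          rw [mem_erase, mem_erase, mem_range] at hj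
          exact mem_nb.2 ⟨hvX j hj.2.2, hadj _ j (hsr i) hj.2.2 (Ne.symm hj.1)⟩
      · rw [disjoint_left]
        intro w hw
        rcases mem_insert.1 hw with h | h
        · subst h
          exact hzU
        rcases mem_insert.1 h with h | h
        · subst h
          exact haU
        · obtain ⟨j, hj, rfl⟩ := mem_image.1 h
          rw [mem_erase, mem_erase, mem_range] at hj
          exact hsU i j hj.2.2 hj.2.1 hj.1
    refine ⟨h1, ?_⟩
    have h2 := ms_nb H (A i) a
    have h3 := hAc i hi
    have h4 := hdeg a haX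
    have h5 := card_sdiff_add_card_inter (ms H X a) (A i)
    have h6 : (ms H (A i) a).card ≤ (ms H X a ∩ A i).card := by
      refine card_le_card fun z hz => ?_
      rw [mem_ms] at hz
      exact mem_inter.2 ⟨mem_ms.2 ⟨hAX i hz.1, hz.2⟩, hz.1⟩
    omega
  -- overlaps are small
  have hover : ∀ i j, i < r → j < r → i ≠ j → (A i ∩ A j).card ≤ K := by
    intro i j hi hj hij
    refine (card_le_card fun z hz => ?_).trans (hUc (v 0))
    rw [mem_inter, memA, memA] at hz
    refine hZ z hz.1.1 fun l hl => ?_
    by_cases h : l = i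
    · exact hz.2.2 l hl (by omega)
    · exact hz.1.2 l hl h
  have typ2 : ∀ i, i < r → ∀ a ∈ A i, a ∉ U (v (s i)) → ∀ j, j < r → j ≠ i →
      (ms H (A j) a).card ≤ 2 * K := by
    intro i hi a ha haU j hj hji
    have h1 : ms H (A j) a ⊆ (ms H X a \ A i) ∪ (A i ∩ A j) := by
      intro z hz
      rw [mem_ms] at hz
      rw [mem_union, mem_sdiff, mem_inter, mem_ms]
      by_cases h : z ∈ A i
      · exact Or.inr ⟨h, hz.1⟩
      · exact Or.inl ⟨⟨hAX j hz.1, hz.2⟩, h⟩
    have h2 := (card_le_card h1).trans (card_union_le _ _)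
    have h3 := (typ i hi a ha haU).2
    have h4 := hover i j hi hj (Ne.symm hji)
    omega
  -- vertices which miss two of the `v j`
  have hKrK : K ≤ r * K := Nat.le_mul_of_pos_left K (by omega)
  classical
  set two := X.filter (fun z => ∃ i j, i < r ∧ j < r ∧ i ≠ j ∧ ¬ H.Adj (v i) z ∧
    ¬ H.Adj (v j) z) with htwo
  have htwoc : two.card ≤ K := by
    set zero := X.filter (fun z => ∀ j, j < r → H.Adj (v j) z) with hzero
    have hz0 : zero.card ≤ K := by
      refine (card_le_card fun z hz => ?_).trans (hUc (v 0))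
      rw [hzero, mem_filter] at hz
      exact hZ z hz.1 hz.2
    have h1 : ∑ z ∈ X, ∑ j ∈ range r, (if ¬ H.Adj (v j) z then 1 else 0) ≤ r * q := by
      rw [sum_comm]
      refine (sum_le_card_nsmul _ _ q ?_).trans ?_
      · intro j hj
        rw [← card_filter]
        refine (card_le_card fun z hz => ?_).trans (hdeg (v j) (hvX j (mem_range.1 hj)))
        rw [mem_filter] at hz
        exact mem_ms.2 hz
      · rw [smul_eq_mul, card_range]
    have h2 : ∀ z ∈ X, 1 + (if z ∈ two then 1 else 0) ≤
        ∑ j ∈ range r, (if ¬ H.Adj (v j) z then 1 else 0) + (if z ∈ zero then 1 else 0) := by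
      intro z hz
      by_cases h3 : z ∈ zero
      · have h4 : z ∉ two := by
          intro h5
          rw [htwo, mem_filter] at h5
          obtain ⟨-, i, j, hi, hj, hij, h6, h7⟩ := h5
          rw [hzero, mem_filter] at h3
          exact h6 (h3.2 i hi)
        rw [if_neg h4, if_pos h3]
        omega
      · rw [if_neg h3]
        by_cases h4 : z ∈ two
        · rw [if_pos h4]
          rw [htwo, mem_filter] at h4
          obtain ⟨-, i, j, hi, hj, hij, h6, h7⟩ := h4
          have h8 : ({i, j} : Finset ℕ) ⊆ range r := by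
            intro l hl
            rw [mem_insert, mem_singleton] at hl
            rcases hl with h | h <;> subst h <;> exact mem_range.2 (by assumption)
          have h9 := sum_le_sum_of_subset (f := fun j => if ¬ H.Adj (v j) z then 1 else 0) h8
          rw [sum_pair hij, if_pos h6, if_pos h7] at h9
          omega
        · rw [if_neg h4]
          have h5 : ∃ j, j < r ∧ ¬ H.Adj (v j) z := by
            by_contra h6
            push Not at h6
            exact h3 (mem_filter.2 ⟨hz, h6⟩)
          obtain ⟨j, hj, h6⟩ := h5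
          have h7 := single_le_sum (f := fun j => if ¬ H.Adj (v j) z then 1 else 0)
            (fun _ _ => Nat.zero_le _) (mem_range.2 hj)
          simp only [h6, not_false_eq_true, if_true] at h7
          omega
    have h3 := sum_le_sum h2
    rw [sum_add_distrib, sum_add_distrib, ← card_filter, ← card_filter, sum_const, smul_eq_mul,
      mul_one] at h3
    have h4 : X.filter (fun z => z ∈ two) = two := by
      ext z
      rw [mem_filter]
      exact ⟨fun h => h.2, fun h => ⟨(mem_filter.1 h).1, h⟩⟩
    have h5 : X.filter (fun z => z ∈ zero) = zero := by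
      ext z
      rw [mem_filter]
      exact ⟨fun h => h.2, fun h => ⟨(mem_filter.1 h).1, h⟩⟩
    rw [h4, h5] at h3
    omega
  -- no vertex has many neighbours in all classes
  have hpart : ∀ x, ∃ i, x ∈ X → i < r ∧ (nb H (A i) x).card ≤ L := by
    intro x
    by_cases hx : x ∈ X
    swap
    · exact ⟨0, fun h => absurd h hx⟩
    by_contra hcon2
    push Not at hcon2
    have hlarge : ∀ i, i < r → L < (nb H (A i) x).card := fun i hi => (hcon2 i).2 hi
    refine hcon x hx (greedyCl H _ r k fun W hW => ?_)
    have hWK : W.card ≤ K := hW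
    set S : ℕ → Finset V := fun l => (nb H (A l) x \ W) \ U (v (s l)) with hS
    have hSc : ∀ l, l < r → 2 * r * K < (S l).card := by
      intro l hl
      have h1 := hlarge l hl
      have h2 := le_card_sdiff W (nb H (A l) x)
      have h3 := le_card_sdiff (U (v (s l))) (nb H (A l) x \ W)
      have h4 := hUc (v (s l))
      have h5 : (S l).card = ((nb H (A l) x \ W) \ U (v (s l))).card := rfl
      omega
    have hSA : ∀ l, S l ⊆ A l := fun l z hz =>
      (mem_nb.1 (mem_sdiff.1 (mem_sdiff.1 hz).1).1).1
    obtain ⟨T, -, hT2, hT3, hT4⟩ := seq H S ∅ (2 * K) (by simp) (range r)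
      (fun u hu => absurd hu (notMem_empty _))
      (fun l hl l' hl' hll u hu => by
        refine (card_le_card (ms_mono (hSA l) u)).trans ?_
        exact typ2 l' (mem_range.1 hl') u (hSA l' hu) (mem_sdiff.1 hu).2 l (mem_range.1 hl) hll)
      (fun l hl => by
        rw [card_empty, card_range, zero_add]
        have h1 := hSc l (mem_range.1 hl)
        calc r * (2 * K) = 2 * r * K := by ring
          _ < _ := h1)
    refine ⟨T, fun u hu => ?_, ?_, ?_⟩
    · rcases hT4 u hu with h | ⟨l, hl, h⟩
      · exact absurd h (notMem_empty _)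
      · have h1 := mem_nb.1 (mem_sdiff.1 (mem_sdiff.1 h).1).1
        exact mem_nb.2 ⟨hAX l h1.1, h1.2⟩
    · rw [disjoint_left]
      intro u hu
      rcases hT4 u hu with h | ⟨l, hl, h⟩
      · exact absurd h (notMem_empty _)
      · exact (mem_sdiff.1 (mem_sdiff.1 h).1).2
    · rw [SimpleGraph.isNClique_iff]
      exact ⟨hT2, by rw [hT3, card_empty, card_range, zero_add]⟩
  choose c hc using hpart
  set A' : ℕ → Finset V := fun i => X.filter (fun x => c x = i) with hA'
  have memA' : ∀ i x, x ∈ A' i ↔ x ∈ X ∧ c x = i := fun i x => mem_filter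
  have hA'X : ∀ i, A' i ⊆ X := fun i => filter_subset _ _
  have hA'nb : ∀ i, ∀ x ∈ A' i, i < r ∧ (nb H (A i) x).card ≤ L := by
    intro i x hx
    rw [memA'] at hx
    have h1 := hc x hx.1
    rw [hx.2] at h1
    exact h1
  -- typical vertices of `A i` lie in `A' i`
  have hstay : ∀ i, i < r → ∀ a ∈ A i, a ∉ U (v (s i)) → a ∈ A' i := by
    intro i hi a ha haU
    rw [memA']
    refine ⟨hAX i ha, ?_⟩
    by_contra hne
    have h1 := hc a (hAX i ha)
    have h2 := typ2 i hi a ha haU (c a) h1.1 hne
    have h3 := ms_nb H (A (c a)) a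
    have h4 := hAc (c a) h1.1
    omega
  have hAA' : ∀ i, i < r → (A i \ A' i).card ≤ K := by
    intro i hi
    refine (card_le_card fun z hz => ?_).trans (hUc (v (s i)))
    rw [mem_sdiff] at hz
    by_contra h
    exact hz.2 (hstay i hi z hz.1 h)
  have hA'A : ∀ i, i < r → (A' i \ A i).card ≤ 3 * K := by
    intro i hi
    have h1 : A' i \ A i ⊆ (two ∪ U (v 0)) ∪ U (v 1) := by
      intro z hz
      rw [mem_sdiff] at hz
      have hzX := hA'X i hz.1
      by_cases h2 : z ∈ two
      · exact mem_union_left _ (mem_union_left _ h2)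
      -- `z` misses at most one `v j`
      have h3 : ∃ j, j < r ∧ z ∈ A j := by
        by_cases h4 : ∃ j, j < r ∧ ¬ H.Adj (v j) z
        · obtain ⟨j, hj, h5⟩ := h4
          refine ⟨j, hj, (memA j z).2 ⟨hzX, fun l hl hlj => ?_⟩⟩
          by_contra h6
          exact h2 (mem_filter.2 ⟨hzX, l, j, hl, hj, hlj, h6, h5⟩)
        · push Not at h4
          exact ⟨0, by omega, (memA 0 z).2 ⟨hzX, fun l hl _ => h4 l hl⟩⟩
      obtain ⟨j, hj, h4⟩ := h3
      have hji : j ≠ i := by
        rintro rfl
        exact hz.2 h4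
      have h5 : z ∈ U (v (s j)) := by
        by_contra h6
        have h7 := hstay j hj z h4 h6
        rw [memA'] at h7
        have h8 := (memA' i z).1 hz.1
        exact hji (h7.2.symm.trans h8.2)
      simp only [hs] at h5
      split_ifs at h5
      · exact mem_union_right _ h5
      · exact mem_union_left _ (mem_union_right _ h5)
    have h2 := (card_le_card h1).trans ((card_union_le _ _).trans
      (Nat.add_le_add_right (card_union_le _ _) _))
    have h3 := hUc (v 0)
    have h4 := hUc (v 1)
    omega
  have hin : ∀ i, ∀ x ∈ A' i, (nb H (A' i) x).card ≤ D := by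
    intro i x hx
    obtain ⟨hi, h1⟩ := hA'nb i x hx
    have h2 : nb H (A' i) x ⊆ nb H (A i) x ∪ (A' i \ A i) := by
      intro z hz
      rw [mem_nb] at hz
      by_cases h : z ∈ A i
      · exact mem_union_left _ (mem_nb.2 ⟨h, hz.2⟩)
      · exact mem_union_right _ (mem_sdiff.2 ⟨hz.1, h⟩)
    have h3 := (card_le_card h2).trans (card_union_le _ _)
    have h4 := hA'A i hi
    omega
  have hacross : ∀ i, ∀ x ∈ A' i, ∀ l, l < r → l ≠ i → (ms H (A' l) x).card ≤ b2 := by
    intro i x hx l hl hli
    obtain ⟨hi, h1⟩ := hA'nb i x hx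
    have hxX := hA'X i hx
    have h2 : ms H (A' l) x ⊆ (ms H X x \ A i) ∪ (A i \ A' i) := by
      intro z hz
      rw [mem_ms] at hz
      by_cases h : z ∈ A i
      · refine mem_union_right _ (mem_sdiff.2 ⟨h, fun h3 => hli ?_⟩)
        rw [memA'] at h3
        exact ((memA' l z).1 hz.1).2.symm.trans h3.2
      · exact mem_union_left _ (mem_sdiff.2 ⟨mem_ms.2 ⟨hA'X l hz.1, hz.2⟩, h⟩)
    have h3 := (card_le_card h2).trans (card_union_le _ _)
    have h4 := hAA' i hi
    have h5 := card_sdiff_add_card_inter (ms H X x) (A i)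
    have h6 : (ms H (A i) x).card ≤ (ms H X x ∩ A i).card := by
      refine card_le_card fun z hz => ?_
      rw [mem_ms] at hz
      exact mem_inter.2 ⟨mem_ms.2 ⟨hAX i hz.1, hz.2⟩, hz.1⟩
    have h7 := ms_nb H (A i) x
    have h8 := hAc i hi
    have h9 := hdeg x hxX
    omega
  have hA'c : ∀ i, i < r → q + 1 ≤ (A' i).card + K := by
    intro i hi
    have h1 := hAA' i hi
    have h2 := hAc i hi
    have h3 : A i ⊆ A' i ∪ (A i \ A' i) := by
      intro z hz
      by_cases h : z ∈ A' i
      · exact mem_union_left _ h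
      · exact mem_union_right _ (mem_sdiff.2 ⟨hz, h⟩)
    have h4 := (card_le_card h3).trans (card_union_le _ _)
    omega
  -- a class with more than `q` vertices
  have hlargeclass : ∃ i, i < r ∧ q < (A' i).card := by
    by_contra h
    push Not at h
    have h1 : X ⊆ (range r).biUnion A' := by
      intro z hz
      exact mem_biUnion.2 ⟨c z, mem_range.2 (hc z hz).1, (memA' _ _).2 ⟨hz, rfl⟩⟩
    have h2 := (card_le_card h1).trans card_biUnion_le
    have h3 := sum_le_card_nsmul (range r) (fun i => (A' i).card) q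
      (fun i hi => h i (mem_range.1 hi))
    rw [smul_eq_mul, card_range] at h3
    omega
  obtain ⟨i, hi, hiq⟩ := hlargeclass
  set j := s i with hj
  have hjr : j < r := hsr i
  have hji : j ≠ i := hsi i
  have hrb : r * K ≤ r * b2 := Nat.mul_le_mul_left _ (by omega)
  obtain ⟨x, hx⟩ : (A' j).Nonempty := card_pos.1 (by
    have := hA'c j hjr
    omega)
  refine hcon x (hA'X j hx) (greedyCl H _ r k fun W hW => ?_)
  have hWK : W.card ≤ K := hW
  set W' := W ∪ ms H (A' i) x with hW'
  have hW'c : W'.card ≤ K + b2 :=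
    (card_union_le _ _).trans (Nat.add_le_add hWK (hacross j x hx i hi (Ne.symm hji)))
  set bad := W' ∪ W'.biUnion (fun u => if u ∈ A' i then nb H (A' i) u else ∅) with hbad
  have hbadc : bad.card ≤ (K + b2) * (D + 1) := by
    refine (card_union_le _ _).trans ?_
    have h1 : (W'.biUnion (fun u => if u ∈ A' i then nb H (A' i) u else ∅)).card ≤
        W'.card * D := by
      refine card_biUnion_le.trans ((sum_le_card_nsmul _ _ D ?_).trans ?_)
      · intro u _
        split_ifs with h
        · exact hin i u h
        · simp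
      · rw [smul_eq_mul]
    calc W'.card + _ ≤ W'.card + W'.card * D := by omega
      _ = W'.card * (D + 1) := by ring
      _ ≤ (K + b2) * (D + 1) := Nat.mul_le_mul_right _ hW'c
  obtain ⟨y, hyA, hyb⟩ := exists_mem_notMem_of_card_lt_card
    (lt_of_le_of_lt (hbadc.trans hbig1) hiq)
  obtain ⟨z, hzA, hzy⟩ : ∃ z, z ∈ A' i ∧ H.Adj y z := by
    have h1 : (ms H X y).card < (A' i).card := lt_of_le_of_lt (hdeg y (hA'X i hyA)) hiq
    obtain ⟨z, hz1, hz2⟩ := exists_mem_notMem_of_card_lt_card h1
    refine ⟨z, hz1, ?_⟩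
    by_contra h
    exact hz2 (mem_ms.2 ⟨hA'X i hz1, h⟩)
  have hyW' : y ∉ W' := fun h => hyb (mem_union_left _ h)
  have hzW' : z ∉ W' := by
    intro h
    refine hyb (mem_union_right _ (mem_biUnion.2 ⟨z, h, ?_⟩))
    rw [if_pos hzA]
    exact mem_nb.2 ⟨hyA, hzy.symm⟩
  have hxadj : ∀ u ∈ A' i, u ∉ W' → H.Adj x u := by
    intro u hu huW
    by_contra h
    exact huW (mem_union_right _ (mem_ms.2 ⟨hu, h⟩))
  set S : ℕ → Finset V := fun l => nb H (A' l) x \ W with hS
  have hSA : ∀ l, S l ⊆ A' l := fun l u hu => (mem_nb.1 (mem_sdiff.1 hu).1).1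
  have hyz : y ≠ z := hzy.ne
  have hI : (((range r).erase i).erase j).card + 2 = r := by
    rw [card_erase_of_mem (mem_erase.2 ⟨hji, mem_range.2 hjr⟩),
      card_erase_of_mem (mem_range.2 hi), card_range]
    omega
  have hpair : ({y, z} : Finset V).card = 2 := card_pair hyz
  obtain ⟨T, hT1, hT2, hT3, hT4⟩ := seq H S {y, z} b2
    (by
      rw [coe_pair]
      intro a ha b hb hab
      simp only [Set.mem_insert_iff, Set.mem_singleton_iff] at ha hb
      rcases ha with rfl | rfl <;> rcases hb with rfl | rfl
      · exact absurd rfl hab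
      · exact hzy
      · exact hzy.symm
      · exact absurd rfl hab)
    (((range r).erase i).erase j)
    (fun u hu l hl => by
      rw [mem_erase, mem_erase, mem_range] at hl
      have huA : u ∈ A' i := by
        rw [mem_insert, mem_singleton] at hu
        rcases hu with rfl | rfl
        · exact hyA
        · exact hzA
      exact (card_le_card (ms_mono (hSA l) u)).trans (hacross i u huA l hl.2.2 hl.2.1))
    (fun l hl l' hl' hll u hu => by
      rw [mem_erase, mem_erase, mem_range] at hl hl'
      exact (card_le_card (ms_mono (hSA l) u)).trans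
        (hacross l' u (hSA l' hu) l hl.2.2 hll))
    (fun l hl => by
      rw [mem_erase, mem_erase, mem_range] at hl
      rw [hpair, add_comm 2, hI]
      have h1 := hA'c l hl.2.2
      have h2 := ms_nb H (A' l) x
      have h3 := hacross j x hx l hl.2.2 hl.1
      have h4 := le_card_sdiff W (nb H (A' l) x)
      have h5 : (S l).card = (nb H (A' l) x \ W).card := rfl
      omega)
  have hTS : ∀ u ∈ T, u ∈ X ∧ H.Adj x u ∧ u ∉ W := by
    intro u hu
    rcases hT4 u hu with h | ⟨l, hl, h⟩
    · rw [mem_insert, mem_singleton] at h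
      rcases h with rfl | rfl
      · exact ⟨hA'X i hyA, hxadj _ hyA hyW', fun h => hyW' (mem_union_left _ h)⟩
      · exact ⟨hA'X i hzA, hxadj _ hzA hzW', fun h => hzW' (mem_union_left _ h)⟩
    · have h1 := mem_nb.1 (mem_sdiff.1 h).1
      exact ⟨hA'X l h1.1, h1.2, (mem_sdiff.1 h).2⟩
  refine ⟨T, fun u hu => mem_nb.2 ⟨(hTS u hu).1, (hTS u hu).2.1⟩, ?_, ?_⟩
  · rw [disjoint_left]
    exact fun u hu => (hTS u hu).2.2
  · rw [SimpleGraph.isNClique_iff]
    exact ⟨hT2, by rw [hT3, hpair, add_comm, hI]⟩

end MP_0a9719_co_Fan
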