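import Pool.Agent.Lib.MP_0a9719_co_Fan.FanHost

/-! MP_0a9719_co_Fan, module FanFin: the graph form of the criterion and the friendship graphs. -/

namespace MP_0a9719_co_Fan

open Finset MP_0a9719_co

/-- Let `F` be a finite graph which is not `r`-colourable, such that the deletion of one edge never
makes it `r`-colourable and no two adjacent vertices are critical. If for infinitely many `N`
the extremal number of `F` on `r * N` vertices is smaller than the number of edges of the
Turán graph plus `log₂ N`, then `F` has property (P). -/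
theorem crit_graph {W : Type*} [Finite W] (F : SimpleGraph W) (r : ℕ) (hr : 1 ≤ r)
    (h0 : ¬ F.Colorable r)
    (h1 : ∀ u v, F.Adj u v → ¬ (F.deleteEdges {s(u, v)}).Colorable r)
    (h2 : ∀ u v, F.Adj u v → ¬ ((F.induce {u}ᶜ).Colorable r ∧ (F.induce {v}ᶜ).Colorable r))
    (h3 : ∀ n₀ : ℕ, ∃ N, n₀ ≤ N ∧ 2 ^ SimpleGraph.extremalNumber (r * N) F <
      N * 2 ^ (r.choose 2 * N ^ 2)) : PropertyP F := by
  classical
  have hne : Nonempty W := by
    by_contra hcon
    rw [not_nonempty_iff] at hcon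
    exact h0 ⟨⟨fun w => hcon.elim w, fun {w} => hcon.elim w⟩⟩
  obtain ⟨m, ⟨e⟩⟩ := Finite.exists_equiv_fin W
  set cr : W → Prop := fun u => (F.induce {u}ᶜ).Colorable r with hcr
  set A : W → W → Prop := fun u v => F.Adj u v ∧ (cr u ∨ (¬ cr v ∧ e u < e v)) with hAdef
  have hA : IsOr F A := by
    intro u v
    constructor
    · constructor
      · intro huv
        by_cases hu : cr u
        · exact Or.inl ⟨huv, Or.inl hu⟩
        · by_cases hv : cr v
          · exact Or.inr ⟨huv.symm, Or.inl hv⟩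
          · have hne2 : e u ≠ e v := fun h => huv.ne (e.injective h)
            rcases lt_or_gt_of_ne hne2 with h | h
            · exact Or.inl ⟨huv, Or.inr ⟨hv, h⟩⟩
            · exact Or.inr ⟨huv.symm, Or.inr ⟨hu, h⟩⟩
      · rintro (h | h)
        · exact h.1
        · exact h.1.symm
    · rintro ⟨⟨huv, h4⟩, ⟨-, h5⟩⟩
      rcases h4 with h4 | ⟨h4, h6⟩ <;> rcases h5 with h5 | ⟨h5, h7⟩
      · exact h2 u v huv ⟨h4, h5⟩
      · exact h5 h4
      · exact h4 h5
      · exact absurd h6 (not_lt.2 h7.le)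
  refine crit_or F A hA r hr (fun c φ hφ => ?_) h3
  have hc : cr c := by
    refine ⟨⟨fun w => φ w.1, fun {a b} hab => ?_⟩⟩
    intro h4
    have hab' : F.Adj a.1 b.1 := hab
    rcases hφ a.1 b.1 hab' h4 with h5 | h5
    · exact a.2 h5
    · exact b.2 h5
  have hy : ∃ y, F.Adj c y ∧ φ y = φ c := by
    by_contra hcon
    refine h0 ⟨⟨φ, fun {a b} hab h4 => hcon ?_⟩⟩
    rcases hφ a b hab h4 with h5 | h5
    · subst h5
      exact ⟨b, hab, h4.symm⟩
    · subst h5
      exact ⟨a, hab.symm, h4⟩
  obtain ⟨y, hcy, hy⟩ := hy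
  have hz : ∃ z, z ≠ y ∧ F.Adj c z ∧ φ z = φ c := by
    by_contra hcon
    refine h1 c y hcy ⟨⟨φ, fun {a b} hab h4 => ?_⟩⟩
    rw [SimpleGraph.deleteEdges_adj] at hab
    obtain ⟨hab, h6⟩ := hab
    rcases hφ a b hab h4 with h5 | h5
    · subst h5
      refine hcon ⟨b, ?_, hab, h4.symm⟩
      rintro rfl
      exact h6 rfl
    · subst h5
      refine hcon ⟨a, ?_, hab.symm, h4⟩
      rintro rfl
      exact h6 Sym2.eq_swap
  obtain ⟨z, hzy, hcz, hz⟩ := hz
  exact ⟨y, z, hzy.symm, ⟨hcy, Or.inl hc⟩, ⟨hcz, Or.inl hc⟩, hy, hz⟩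

theorem fan_no_two_colour {k : ℕ} (φ : Option (Fin k × Bool) → Fin 2) (i : Fin k)
    (h1 : φ none ≠ φ (some (i, false))) (h2 : φ none ≠ φ (some (i, true)))
    (h3 : φ (some (i, false)) ≠ φ (some (i, true))) : False := by
  generalize φ none = a at *
  generalize φ (some (i, false)) = b at *
  generalize φ (some (i, true)) = c at *
  omega

/-- every friendship graph with at least two triangles has property (P). -/
theorem fan_propertyP (k : ℕ) (hk : 2 ≤ k) : PropertyP (fan k) := by
  have hadj0 : ∀ p : Fin k × Bool, (fan k).Adj none (some p) := fun p => trivial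
  have hadj1 : ∀ i : Fin k, (fan k).Adj (some (i, false)) (some (i, true)) :=
    fun i => ⟨rfl, Bool.false_ne_true⟩
  -- the two triangles of index 0 and 1
  have htwo : ∀ p : Fin k × Bool, ∃ i : Fin k, i ≠ p.1 := by
    intro p
    by_cases h : p.1.val = 0
    · refine ⟨⟨1, by omega⟩, fun h2 => ?_⟩
      have := congrArg Fin.val h2
      simp only at this
      omega
    · refine ⟨⟨0, by omega⟩, fun h2 => ?_⟩
      have := congrArg Fin.val h2
      simp only at this
      omega
  -- deleting a leaf vertex leaves a triangle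
  have hcrit : ∀ p : Fin k × Bool, ¬ ((fan k).induce {some p}ᶜ).Colorable 2 := by
    rintro p ⟨φ⟩
    obtain ⟨i, hi⟩ := htwo p
    have m0 : (none : Option (Fin k × Bool)) ∈ ({some p}ᶜ : Set (Option (Fin k × Bool))) := by
      intro h
      exact Option.some_ne_none p (Eq.symm h)
    have m1 : ∀ c, (some (i, c) : Option (Fin k × Bool)) ∈
        ({some p}ᶜ : Set (Option (Fin k × Bool))) := by
      intro c h
      apply hi
      have h4 := Option.some.inj h
      exact congrArg Prod.fst h4
    have e1 := φ.valid (v := ⟨none, m0⟩) (w := ⟨some (i, false), m1 _⟩) (hadj0 (i, false))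
    have e2 := φ.valid (v := ⟨none, m0⟩) (w := ⟨some (i, true), m1 _⟩) (hadj0 (i, true))
    have e3 := φ.valid (v := ⟨some (i, false), m1 _⟩) (w := ⟨some (i, true), m1 _⟩) (hadj1 i)
    generalize φ ⟨none, m0⟩ = a at *
    generalize φ ⟨some (i, false), m1 _⟩ = b at *
    generalize φ ⟨some (i, true), m1 _⟩ = c at *
    omega
  refine crit_graph (fan k) 2 (by norm_num) ?_ ?_ ?_ ?_
  · rintro ⟨φ⟩
    exact fan_no_two_colour φ ⟨0, by omega⟩ (φ.valid (hadj0 _)) (φ.valid (hadj0 _))
      (φ.valid (hadj1 _))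
  · rintro u v huv ⟨φ⟩
    -- a triangle not containing the edge `uv`
    have hi : ∃ i : Fin k, (∀ c, s(u, v) ≠ s(none, some (i, c))) ∧
        s(u, v) ≠ s(some (i, false), some (i, true)) := by
      have hp : ∃ p : Fin k × Bool, (u = some p ∨ v = some p) := by
        rcases u with _ | p
        · rcases v with _ | q
          · exact huv.elim
          · exact ⟨q, Or.inr rfl⟩
        · exact ⟨p, Or.inl rfl⟩
      obtain ⟨p, hp⟩ := hp
      obtain ⟨i, hi⟩ := htwo p
      refine ⟨i, fun c h => ?_, fun h => ?_⟩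
      · rcases Sym2.eq_iff.1 h with ⟨h4, h5⟩ | ⟨h4, h5⟩ <;> subst h4 <;> subst h5
        · rcases hp with hp | hp
          · exact Option.some_ne_none p hp.symm
          · exact hi (congrArg Prod.fst (Option.some.inj hp))
        · rcases hp with hp | hp
          · exact hi (congrArg Prod.fst (Option.some.inj hp))
          · exact Option.some_ne_none p hp.symm
      · rcases Sym2.eq_iff.1 h with ⟨h4, h5⟩ | ⟨h4, h5⟩ <;> subst h4 <;> subst h5 <;>
          rcases hp with hp | hp <;> exact hi (congrArg Prod.fst (Option.some.inj hp))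
    obtain ⟨i, hi1, hi2⟩ := hi
    have hdel : ∀ a b, (fan k).Adj a b → s(u, v) ≠ s(a, b) →
        ((fan k).deleteEdges {s(u, v)}).Adj a b := by
      intro a b hab hne
      rw [SimpleGraph.deleteEdges_adj]
      exact ⟨hab, fun h => hne (Eq.symm h)⟩
    exact fan_no_two_colour φ i (φ.valid (hdel _ _ (hadj0 _) (hi1 _)))
      (φ.valid (hdel _ _ (hadj0 _) (hi1 _))) (φ.valid (hdel _ _ (hadj1 _) hi2))
  · rintro (_ | p) v huv ⟨h4, h5⟩
    · rcases v with _ | q
      · exact huv
      · exact hcrit q h5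
    · exact hcrit p h4
  · obtain ⟨C, hC⟩ := ex_fan k
    intro n₀
    refine ⟨max n₀ (2 ^ C + 1), le_max_left _ _, ?_⟩
    set N := max n₀ (2 ^ C + 1) with hN
    have hNC : 2 ^ C < N := lt_of_lt_of_le (Nat.lt_succ_self _) (le_max_right _ _)
    have h5 : SimpleGraph.extremalNumber (2 * N) (fan k) ≤ N ^ 2 + C := by
      have h6 : Fintype.card (Fin (2 * N)) = 2 * N := Fintype.card_fin _
      rw [← h6, SimpleGraph.extremalNumber_le_iff]
      intro G _ hG
      have h7 := hC (Fin (2 * N)) G hG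
      rw [← SimpleGraph.coe_edgeFinset, Set.ncard_coe_finset, Fintype.card_fin] at h7
      have h8 : (2 * N) ^ 2 / 4 = N ^ 2 := by
        have h9 : (2 * N) ^ 2 = 4 * N ^ 2 := by ring
        rw [h9]
        omega
      rw [h8] at h7
      exact h7
    have h10 : Nat.choose 2 2 * N ^ 2 = N ^ 2 := by
      simp
    rw [h10]
    calc 2 ^ SimpleGraph.extremalNumber (2 * N) (fan k) ≤ 2 ^ (N ^ 2 + C) :=
          Nat.pow_le_pow_right (by norm_num) h5
      _ = 2 ^ C * 2 ^ (N ^ 2) := by rw [pow_add, mul_comm]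
      _ < N * 2 ^ (N ^ 2) := Nat.mul_lt_mul_of_pos_right hNC (by positivity)

end MP_0a9719_co_Fan
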