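import Pool.Agent.Lib.MP_0a9719_co_Fan.CfCore
import Pool.Agent.Lib.MP_0a9719_co_Fan.FanFin

/-! MP_0a9719_co_Fan, module CfFin: `k` cliques `K_(r+1)` with exactly one common vertex: the Turán
number up to a constant (Chen, Gould, Pfender, Wei 2003, with the exact constant; here only some
constant) and property (P). -/

namespace MP_0a9719_co_Fan

open Finset MP_0a9719_co

/-- `k` cliques with `r + 1` vertices and exactly one common vertex, the centre `none`; the clique
number `t` has the vertices `none` and `some (t, a)` for `a : Fin r`. -/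
def cfan (r k : ℕ) : SimpleGraph (Option (Fin k × Fin r)) where
  Adj u v := match u, v with
    | none, some _ => True
    | some _, none => True
    | some p, some q => p.1 = q.1 ∧ p.2 ≠ q.2
    | none, none => False
  symm := ⟨by
    rintro (_ | p) (_ | q) h
    · exact h
    · exact h
    · exact h
    · exact ⟨h.1.symm, h.2.symm⟩⟩
  loopless := ⟨by
    rintro (_ | p) h
    · exact h
    · exact h.2 rfl⟩

theorem cfan_contained {V : Type*} [DecidableEq V] (H : SimpleGraph V) (X : Finset V) (r k : ℕ)
    (x : V) (h : HasCl H (nb H X x) r k) : (cfan r k).IsContained H := by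
  obtain ⟨T, hT, hd⟩ := h
  let e : ∀ t, Fin r ≃ T t := fun t => (Finset.equivFinOfCardEq (hT t).2.card_eq).symm
  let f : Fin k × Fin r → V := fun p => (e p.1 p.2 : V)
  have hmem : ∀ p, f p ∈ T p.1 := fun p => (e p.1 p.2).2
  have hadj : ∀ p, H.Adj x (f p) := fun p => (mem_nb.1 ((hT p.1).1 (hmem p))).2
  have hf : Function.Injective f := by
    rintro ⟨t, a⟩ ⟨s, b⟩ hab
    have hts : t = s := by
      by_contra hne
      have h1 := hmem (t, a)
      have h2 := hmem (s, b)
      rw [← hab] at h2
      exact (Finset.disjoint_left.1 (hd t s hne)) h1 h2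
    subst hts
    have h3 : e t a = e t b := Subtype.ext hab
    rw [(e t).injective h3]
  refine ⟨⟨⟨fun u => match u with | none => x | some p => f p, ?_⟩, ?_⟩⟩
  · rintro (_ | p) (_ | q) huv
    · exact huv.elim
    · exact hadj q
    · exact (hadj p).symm
    · obtain ⟨t, a⟩ := p
      obtain ⟨s, b⟩ := q
      obtain ⟨h1, h2⟩ := huv
      simp only at h1 h2
      subst h1
      refine (hT t).2.isClique (hmem (t, a)) (hmem (t, b)) fun h3 => h2 ?_
      exact congrArg Prod.snd (hf h3)
  · rintro (_ | p) (_ | q) huv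
    · rfl
    · exact absurd huv (hadj q).ne
    · exact absurd huv.symm (hadj p).ne
    · exact congrArg some (hf huv)

/-- the number of edges of the Turán graph `T_r(n)`, as the sum of the degrees of a new vertex. -/
def tg (r n : ℕ) : ℕ := ∑ i ∈ range n, (i - i / r)

theorem tg_succ (r n : ℕ) : tg r (n + 1) = tg r n + (n - n / r) := by
  unfold tg
  rw [sum_range_succ]

theorem tg_mul (r N : ℕ) (hr : 1 ≤ r) : tg r (r * N) = r.choose 2 * N ^ 2 := by
  obtain ⟨s, rfl⟩ : ∃ s, r = s + 1 := ⟨r - 1, by omega⟩
  have hc : (∑ j ∈ range (s + 1), j) = (s + 1).choose 2 := by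
    rw [sum_range_id, Nat.choose_two_right]
  have hc2 : (s + 1).choose 2 * 2 = (s + 1) * s := by
    rw [← hc, sum_range_id_mul_two, Nat.add_sub_cancel]
  induction N with
  | zero => simp [tg]
  | succ N ih =>
    have h1 : ∀ j ∈ range (s + 1), ((s + 1) * N + j) - ((s + 1) * N + j) / (s + 1) = s * N + j := by
      intro j hj
      have h2 : ((s + 1) * N + j) / (s + 1) = N := by
        rw [Nat.mul_add_div (by omega), Nat.div_eq_of_lt (mem_range.1 hj), add_zero]
      rw [h2, add_mul, one_mul]
      omega
    have h3 : tg (s + 1) ((s + 1) * (N + 1)) = tg (s + 1) ((s + 1) * N) +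
        ∑ j ∈ range (s + 1), (s * N + j) := by
      rw [← sum_congr rfl h1]
      unfold tg
      rw [mul_add, mul_one, sum_range_add]
    rw [h3, ih, sum_add_distrib, hc, sum_const, card_range, smul_eq_mul]
    have h4 : (s + 1) * (s * N) = (s + 1).choose 2 * 2 * N := by
      rw [hc2]
      ring
    rw [h4]
    ring

theorem tw_leCl {V : Type*} [DecidableEq V] (H : SimpleGraph V) (r k : ℕ) (hr : 2 ≤ r)
    (h : (cfan r k).Free H) (X : Finset V) :
    tw H X ≤ 2 * tg r X.card + (r * cQ r k) ^ 2 := by
  set m := r * cQ r k with hm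
  induction X using Finset.strongInduction with
  | H X ih =>
    by_cases hX : X.card ≤ m
    · have h1 : tw H X ≤ X.card * X.card := by
        unfold tw
        refine (sum_le_card_nsmul _ _ X.card fun v _ => card_le_card fun u hu =>
          (mem_nb.1 hu).1).trans ?_
        rw [smul_eq_mul]
      have h2 : X.card * X.card ≤ m ^ 2 := by
        rw [sq]
        exact Nat.mul_le_mul hX hX
      omega
    · push Not at hX
      by_cases hv : ∃ v ∈ X, (X.card - 1) / r < (ms H X v).card
      · obtain ⟨v, hv, hvd⟩ := hv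
        have h1 := tw_erase H X v hv
        have h2 := ih (X.erase v) (erase_ssubset hv)
        have h3 : (X.erase v).card = X.card - 1 := card_erase_of_mem hv
        rw [h3] at h2
        have h4 := tg_succ r (X.card - 1)
        have h5 : X.card - 1 + 1 = X.card := by omega
        rw [h5] at h4
        have h6 := ms_nb H X v
        omega
      · exfalso
        push Not at hv
        have h1 : r * ((X.card - 1) / r) ≤ X.card - 1 := Nat.mul_div_le _ _
        have h2 : cQ r k ≤ (X.card - 1) / r := by
          rw [Nat.le_div_iff_mul_le (by omega), mul_comm]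
          omega
        obtain ⟨x, -, hx⟩ := coreCl H X r k ((X.card - 1) / r) hr (by omega) hv h2
        exact h (cfan_contained H X r k x hx)

theorem ex_cfan (r k : ℕ) (hr : 2 ≤ r) : ∃ C : ℕ, ∀ N : ℕ,
    SimpleGraph.extremalNumber (r * N) (cfan r k) ≤ r.choose 2 * N ^ 2 + C := by
  refine ⟨(r * cQ r k) ^ 2, fun N => ?_⟩
  have h6 : Fintype.card (Fin (r * N)) = r * N := Fintype.card_fin _
  rw [← h6, SimpleGraph.extremalNumber_le_iff]
  intro H _ hH
  classical
  have h1 := tw_leCl H r k hr hH Finset.univ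
  have h2 : tw H Finset.univ = 2 * H.edgeFinset.card := by
    rw [← H.sum_degrees_eq_twice_card_edges]
    unfold tw
    refine sum_congr rfl fun v _ => ?_
    rw [← H.card_neighborFinset_eq_degree]
    congr 1
    ext u
    rw [mem_nb, SimpleGraph.mem_neighborFinset]
    simp
  rw [card_univ, h6, tg_mul r N (by omega)] at h1
  omega

theorem no_col {r : ℕ} (c : Fin r) (f : Fin r → Fin r) (h1 : ∀ a, c ≠ f a)
    (h2 : ∀ a b, a ≠ b → f a ≠ f b) : False := by
  have hinj : Function.Injective f := fun a b hab => by_contra fun hne => h2 a b hne hab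
  obtain ⟨a, ha⟩ := (Finite.injective_iff_surjective.1 hinj) c
  exact h1 a ha.symm

/-- `k ≥ 2` cliques `K_(r+1)` with one common vertex have property (P). -/
theorem cfan_propertyP (r k : ℕ) (hr : 2 ≤ r) (hk : 2 ≤ k) : PropertyP (cfan r k) := by
  have hadj0 : ∀ p : Fin k × Fin r, (cfan r k).Adj none (some p) := fun p => trivial
  have hadj1 : ∀ (t : Fin k) (a b : Fin r), a ≠ b →
      (cfan r k).Adj (some (t, a)) (some (t, b)) := fun t a b hab => ⟨rfl, hab⟩
  have htwo : ∀ p : Fin k × Fin r, ∃ i : Fin k, i ≠ p.1 := by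
    intro p
    by_cases h : p.1.val = 0
    · refine ⟨⟨1, by omega⟩, fun h2 => ?_⟩
      have := congrArg Fin.val h2
      simp only at this
      omega
    · refine ⟨⟨0, by omega⟩, fun h2 => ?_⟩
      have := congrArg Fin.val h2
      simp only at this
      omega
  have hcrit : ∀ p : Fin k × Fin r, ¬ ((cfan r k).induce {some p}ᶜ).Colorable r := by
    rintro p ⟨φ⟩
    obtain ⟨i, hi⟩ := htwo p
    have m0 : (none : Option (Fin k × Fin r)) ∈ ({some p}ᶜ : Set (Option (Fin k × Fin r))) := by
      intro h
      exact Option.some_ne_none p (Eq.symm h)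
    have m1 : ∀ c, (some (i, c) : Option (Fin k × Fin r)) ∈
        ({some p}ᶜ : Set (Option (Fin k × Fin r))) := by
      intro c h
      apply hi
      have h4 := Option.some.inj h
      exact congrArg Prod.fst h4
    exact no_col (φ ⟨none, m0⟩) (fun a => φ ⟨some (i, a), m1 a⟩)
      (fun a => φ.valid (v := ⟨none, m0⟩) (w := ⟨some (i, a), m1 _⟩) (hadj0 (i, a)))
      (fun a b hab => φ.valid (v := ⟨some (i, a), m1 _⟩) (w := ⟨some (i, b), m1 _⟩)
        (hadj1 i a b hab))
  refine crit_graph (cfan r k) r (by omega) ?_ ?_ ?_ ?_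
  · rintro ⟨φ⟩
    exact no_col (φ none) (fun a => φ (some (⟨0, by omega⟩, a))) (fun a => φ.valid (hadj0 _))
      (fun a b hab => φ.valid (hadj1 _ _ _ hab))
  · rintro u v huv ⟨φ⟩
    have hi : ∃ i : Fin k, (∀ c, s(u, v) ≠ s(none, some (i, c))) ∧
        ∀ a b, s(u, v) ≠ s(some (i, a), some (i, b)) := by
      have hp : ∃ p : Fin k × Fin r, (u = some p ∨ v = some p) := by
        rcases u with _ | p
        · rcases v with _ | q
          · exact huv.elim
          · exact ⟨q, Or.inr rfl⟩
        · exact ⟨p, Or.inl rfl⟩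
      obtain ⟨p, hp⟩ := hp
      obtain ⟨i, hi⟩ := htwo p
      refine ⟨i, fun c h => ?_, fun a b h => ?_⟩
      · rcases Sym2.eq_iff.1 h with ⟨h4, h5⟩ | ⟨h4, h5⟩ <;> subst h4 <;> subst h5
        · rcases hp with hp | hp
          · exact Option.some_ne_none p hp.symm
          · exact hi (congrArg Prod.fst (Option.some.inj hp))
        · rcases hp with hp | hp
          · exact hi (congrArg Prod.fst (Option.some.inj hp))
          · exact Option.some_ne_none p hp.symm
      · rcases Sym2.eq_iff.1 h with ⟨h4, h5⟩ | ⟨h4, h5⟩ <;> subst h4 <;> subst h5 <;>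
          rcases hp with hp | hp <;> exact hi (congrArg Prod.fst (Option.some.inj hp))
    obtain ⟨i, hi1, hi2⟩ := hi
    have hdel : ∀ a b, (cfan r k).Adj a b → s(u, v) ≠ s(a, b) →
        ((cfan r k).deleteEdges {s(u, v)}).Adj a b := by
      intro a b hab hne
      rw [SimpleGraph.deleteEdges_adj]
      exact ⟨hab, fun h => hne (Eq.symm h)⟩
    exact no_col (φ none) (fun a => φ (some (i, a)))
      (fun a => φ.valid (hdel _ _ (hadj0 _) (hi1 _)))
      (fun a b hab => φ.valid (hdel _ _ (hadj1 _ _ _ hab) (hi2 _ _)))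
  · rintro (_ | p) v huv ⟨h4, h5⟩
    · rcases v with _ | q
      · exact huv
      · exact hcrit q h5
    · exact hcrit p h4
  · obtain ⟨C, hC⟩ := ex_cfan r k hr
    intro n₀
    refine ⟨max n₀ (2 ^ C + 1), le_max_left _ _, ?_⟩
    set N := max n₀ (2 ^ C + 1) with hN
    have hNC : 2 ^ C < N := lt_of_lt_of_le (Nat.lt_succ_self _) (le_max_right _ _)
    calc 2 ^ SimpleGraph.extremalNumber (r * N) (cfan r k) ≤ 2 ^ (r.choose 2 * N ^ 2 + C) :=
          Nat.pow_le_pow_right (by norm_num) (hC N)
      _ = 2 ^ C * 2 ^ (r.choose 2 * N ^ 2) := by rw [pow_add, mul_comm]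
      _ < N * 2 ^ (r.choose 2 * N ^ 2) := Nat.mul_lt_mul_of_pos_right hNC (by positivity)

end MP_0a9719_co_Fan
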