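import Pool.Agent.Lib.MP_0a9719_co_Fan.FanMat

/-! MP_0a9719_co_Fan, module CfSeq: disjoint cliques in a vertex set, greedy lemma, and the
sequential choice of a transversal clique. -/

namespace MP_0a9719_co_Fan

open Finset

/-- the vertices of `S` which are not adjacent to `u`. -/
noncomputable def ms {V : Type*} (H : SimpleGraph V) (S : Finset V) (u : V) : Finset V := by
  classical exact S.filter (fun z => ¬ H.Adj u z)

theorem mem_ms {V : Type*} {H : SimpleGraph V} {S : Finset V} {u z : V} :
    z ∈ ms H S u ↔ z ∈ S ∧ ¬ H.Adj u z := by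
  classical
  simp [ms]

theorem ms_mono {V : Type*} {H : SimpleGraph V} {S S' : Finset V} (h : S ⊆ S') (u : V) :
    ms H S u ⊆ ms H S' u := by
  intro z hz
  rw [mem_ms] at hz ⊢
  exact ⟨h hz.1, hz.2⟩

theorem ms_nb {V : Type*} (H : SimpleGraph V) (S : Finset V) (u : V) :
    (ms H S u).card + (nb H S u).card = S.card := by
  classical
  rw [add_comm]
  have h1 : nb H S u = S.filter (fun z => H.Adj u z) := by
    ext z
    rw [mem_nb, mem_filter]
  have h2 : ms H S u = S.filter (fun z => ¬ H.Adj u z) := by
    ext z
    rw [mem_ms, mem_filter]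
  rw [h1, h2]
  exact card_filter_add_card_filter_not _

variable {V : Type*} [DecidableEq V]

/-- `S` contains `k` pairwise disjoint cliques of `H` with `r` vertices. -/
def HasCl (H : SimpleGraph V) (S : Finset V) (r k : ℕ) : Prop :=
  ∃ T : Fin k → Finset V, (∀ t, T t ⊆ S ∧ H.IsNClique r (T t)) ∧
    ∀ s t, s ≠ t → Disjoint (T s) (T t)

theorem greedyCl (H : SimpleGraph V) (S : Finset V) (r k : ℕ)
    (h : ∀ U : Finset V, U.card ≤ r * k → ∃ T, T ⊆ S ∧ Disjoint T U ∧ H.IsNClique r T) :
    HasCl H S r k := by
  have key : ∀ j, j ≤ k → HasCl H S r j := by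
    intro j
    induction j with
    | zero => exact fun _ => ⟨fun t => t.elim0, fun t => t.elim0, fun t => t.elim0⟩
    | succ j ih =>
      intro hj
      obtain ⟨T, hT, hd⟩ := ih (by omega)
      obtain ⟨T', hT'S, hT'U, hT'c⟩ := h (univ.biUnion T) (by
        refine card_biUnion_le.trans ?_
        rw [sum_congr rfl (fun t _ => (hT t).2.card_eq), sum_const, smul_eq_mul, card_univ,
          Fintype.card_fin, mul_comm]
        exact Nat.mul_le_mul_left _ (by omega))
      have hdis : ∀ t, Disjoint (T t) T' := fun t =>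
        (Disjoint.mono_right (subset_biUnion_of_mem T (mem_univ t)) hT'U).symm
      refine ⟨fun t => if ht : t.val < j then T ⟨t.val, ht⟩ else T', fun t => ?_, ?_⟩
      · by_cases ht : t.val < j
        · simp only [ht, dite_true]
          exact hT _
        · simp only [ht, dite_false]
          exact ⟨hT'S, hT'c⟩
      · intro s t hst
        by_cases hs : s.val < j
        · by_cases ht : t.val < j
          · simp only [hs, ht, dite_true]
            refine hd _ _ fun h2 => hst (Fin.ext ?_)
            simpa [Fin.ext_iff] using h2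
          · simp only [hs, ht, dite_true, dite_false]
            exact hdis _
        · by_cases ht : t.val < j
          · simp only [hs, ht, dite_true, dite_false]
            exact (hdis _).symm
          · exfalso
            have h1 := s.isLt
            have h2 := t.isLt
            exact hst (Fin.ext (by omega))
  exact key k le_rfl

theorem seq {ι : Type*} [DecidableEq ι] (H : SimpleGraph V) (S : ι → Finset V)
    (T0 : Finset V) (b : ℕ) (hT0 : H.IsClique (T0 : Set V)) (I : Finset ι)
    (h0 : ∀ u ∈ T0, ∀ l ∈ I, (ms H (S l) u).card ≤ b)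
    (h1 : ∀ l ∈ I, ∀ l' ∈ I, l ≠ l' → ∀ u ∈ S l', (ms H (S l) u).card ≤ b)
    (hbig : ∀ l ∈ I, (T0.card + I.card) * b < (S l).card) :
    ∃ T : Finset V, T0 ⊆ T ∧ H.IsClique (T : Set V) ∧ T.card = T0.card + I.card ∧
      ∀ u ∈ T, u ∈ T0 ∨ ∃ l ∈ I, u ∈ S l := by
  induction I using Finset.induction_on with
  | empty => exact ⟨T0, Subset.refl _, hT0, by simp, fun u hu => Or.inl hu⟩
  | insert l I hl ih =>
    obtain ⟨T, hT1, hT2, hT3, hT4⟩ := ih
      (fun u hu l' hl' => h0 u hu l' (mem_insert_of_mem hl'))
      (fun l1 hl1 l2 hl2 => h1 l1 (mem_insert_of_mem hl1) l2 (mem_insert_of_mem hl2))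
      (fun l' hl' => by
        refine lt_of_le_of_lt ?_ (hbig l' (mem_insert_of_mem hl'))
        refine Nat.mul_le_mul_right _ ?_
        rw [card_insert_of_notMem hl]
        omega)
    have hb : (T.biUnion (fun w => ms H (S l) w)).card < (S l).card := by
      refine lt_of_le_of_lt ?_ (hbig l (mem_insert_self _ _))
      refine card_biUnion_le.trans ((sum_le_card_nsmul _ _ b ?_).trans ?_)
      · intro w hw
        rcases hT4 w hw with h | ⟨l', hl', h⟩
        · exact h0 w h l (mem_insert_self _ _)
        · refine h1 l (mem_insert_self _ _) l' (mem_insert_of_mem hl') ?_ w h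
          rintro rfl
          exact hl hl'
      · rw [smul_eq_mul, hT3, card_insert_of_notMem hl]
        exact Nat.mul_le_mul_right _ (by omega)
    obtain ⟨u, huS, hub⟩ := exists_mem_notMem_of_card_lt_card hb
    have hadj : ∀ w ∈ T, H.Adj w u := by
      intro w hw
      by_contra hcon
      exact hub (mem_biUnion.2 ⟨w, hw, mem_ms.2 ⟨huS, hcon⟩⟩)
    have huT : u ∉ T := fun h => (hadj u h).ne rfl
    refine ⟨insert u T, hT1.trans (subset_insert _ _), ?_, ?_, ?_⟩
    · rw [coe_insert]
      exact hT2.insert fun w hw _ => (hadj w hw).symm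
    · rw [card_insert_of_notMem huT, hT3, card_insert_of_notMem hl]
      ring
    · intro w hw
      rcases mem_insert.1 hw with h | h
      · subst h
        exact Or.inr ⟨l, mem_insert_self _ _, huS⟩
      · rcases hT4 w h with h2 | ⟨l', hl', h2⟩
        · exact Or.inl h2
        · exact Or.inr ⟨l', mem_insert_of_mem hl', h2⟩

theorem imgCl (H : SimpleGraph V) (v : ℕ → V) (J : Finset ℕ)
    (h : ∀ i ∈ J, ∀ j ∈ J, i ≠ j → H.Adj (v i) (v j)) : H.IsNClique J.card (J.image v) := by
  induction J using Finset.induction_on with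
  | empty => simp [SimpleGraph.isNClique_iff]
  | insert i J hi ih =>
    rw [image_insert, card_insert_of_notMem hi]
    refine SimpleGraph.IsNClique.insert (ih fun a ha b hb => h a (mem_insert_of_mem ha) b
      (mem_insert_of_mem hb)) fun w hw => ?_
    obtain ⟨j, hj, rfl⟩ := mem_image.1 hw
    refine h i (mem_insert_self _ _) j (mem_insert_of_mem hj) ?_
    rintro rfl
    exact hi hj

end MP_0a9719_co_Fan
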