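import Pool.Agent.Lib.MP_0a9719_co_Fan.FanMat

/-! MP_0a9719_co_Fan, module FanEx: friendship graphs and their Turán number up to a constant:
`ex(n, F_k) ≤ n²/4 + C(k)` (Erdős, Füredi, Gould, Gunderson 1995, with the exact constant; here
only some constant). Delete a vertex of degree at most `⌊n/2⌋` as long as there is one. -/

namespace MP_0a9719_co_Fan

open Finset

/-- the friendship graph `F_k`: the centre `none` and, for `i : Fin k`, the triangle with
vertices `none`, `some (i, false)`, `some (i, true)`. -/
def fan (k : ℕ) : SimpleGraph (Option (Fin k × Bool)) where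
  Adj u v := match u, v with
    | none, some _ => True
    | some _, none => True
    | some p, some q => p.1 = q.1 ∧ p.2 ≠ q.2
    | none, none => False
  symm := ⟨by
    rintro (_ | p) (_ | q) h
    · exact h
    · exact h
    · exact h
    · exact ⟨h.1.symm, h.2.symm⟩⟩
  loopless := ⟨by
    rintro (_ | p) h
    · exact h
    · exact h.2 rfl⟩

theorem fan_contained {V : Type*} [DecidableEq V] (H : SimpleGraph V) (X : Finset V) (k : ℕ)
    (x : V) (h : HasMat H (nb H X x) k) : (fan k).IsContained H := by
  obtain ⟨f, hf, hfx, hfA⟩ := h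
  have hadj : ∀ p, H.Adj x (f p) := fun p => (mem_nb.1 (hfx p)).2
  refine ⟨⟨⟨fun u => match u with | none => x | some p => f p, ?_⟩, ?_⟩⟩
  · rintro (_ | p) (_ | q) huv
    · exact huv.elim
    · exact hadj q
    · exact (hadj p).symm
    · obtain ⟨i, c⟩ := p
      obtain ⟨i', c'⟩ := q
      obtain ⟨h1, h2⟩ := huv
      simp only at h1 h2
      subst h1
      cases c <;> cases c'
      · exact absurd rfl h2
      · exact hfA i
      · exact (hfA i).symm
      · exact absurd rfl h2
  · rintro (_ | p) (_ | q) huv
    · rfl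
    · exact absurd huv (hadj q).ne
    · exact absurd huv.symm (hadj p).ne
    · exact congrArg some (hf huv)

/-- twice the number of edges inside `X`. -/
noncomputable def tw {V : Type*} (H : SimpleGraph V) (X : Finset V) : ℕ :=
  ∑ v ∈ X, (nb H X v).card

theorem tw_erase {V : Type*} [DecidableEq V] (H : SimpleGraph V) (X : Finset V) (v : V)
    (hv : v ∈ X) : tw H X = tw H (X.erase v) + 2 * (nb H X v).card := by
  classical
  have h1 : ∀ u ∈ X.erase v, (nb H X u).card = (nb H (X.erase v) u).card +
      (if H.Adj v u then 1 else 0) := by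
    intro u hu
    rw [mem_erase] at hu
    split_ifs with h
    · have h2 : nb H X u = insert v (nb H (X.erase v) u) := by
        ext z
        rw [mem_insert, mem_nb, mem_nb, mem_erase]
        constructor
        · rintro ⟨h3, h4⟩
          by_cases h5 : z = v
          · exact Or.inl h5
          · exact Or.inr ⟨⟨h5, h3⟩, h4⟩
        · rintro (h3 | h3)
          · subst h3
            exact ⟨hv, h.symm⟩
          · exact ⟨h3.1.2, h3.2⟩
      rw [h2, card_insert_of_notMem]
      intro h3
      exact (mem_erase.1 (mem_nb.1 h3).1).1 rfl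
    · have h2 : nb H X u = nb H (X.erase v) u := by
        ext z
        rw [mem_nb, mem_nb, mem_erase]
        constructor
        · rintro ⟨h3, h4⟩
          refine ⟨⟨?_, h3⟩, h4⟩
          rintro rfl
          exact h h4.symm
        · exact fun h3 => ⟨h3.1.2, h3.2⟩
      rw [h2, add_zero]
  have h2 : ∑ u ∈ X.erase v, (if H.Adj v u then 1 else 0) = (nb H X v).card := by
    rw [← card_filter]
    congr 1
    ext z
    rw [mem_filter, mem_erase, mem_nb]
    constructor
    · exact fun h3 => ⟨h3.1.2, h3.2⟩
    · exact fun h3 => ⟨⟨h3.2.ne', h3.1⟩, h3.2⟩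
  unfold tw
  rw [← add_sum_erase X _ hv, sum_congr rfl h1, sum_add_distrib, h2]
  ring

theorem sq_step (n : ℕ) (hn : 1 ≤ n) : (n - 1) ^ 2 / 4 + n / 2 = n ^ 2 / 4 := by
  obtain ⟨m, rfl⟩ : ∃ m, n = m + 1 := ⟨n - 1, by omega⟩
  rw [Nat.add_sub_cancel]
  rcases Nat.even_or_odd' m with ⟨p, rfl | rfl⟩
  · have h1 : (2 * p) ^ 2 = 4 * (p * p) := by ring
    have h2 : (2 * p + 1) ^ 2 = 4 * (p * p) + 4 * p + 1 := by ring
    rw [h1, h2]
    omega
  · have h1 : (2 * p + 1) ^ 2 = 4 * (p * p) + 4 * p + 1 := by ring
    have h2 : (2 * p + 1 + 1) ^ 2 = 4 * (p * p) + 8 * p + 4 := by ring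
    rw [h1, h2]
    omega

theorem tw_le {V : Type*} [DecidableEq V] (H : SimpleGraph V) (k : ℕ)
    (h : (fan k).Free H) (X : Finset V) :
    tw H X ≤ 2 * (X.card ^ 2 / 4) +
      (2 * (2 * k * (14 * k) + 14 * k + 2 * k + 1)) ^ 2 := by
  set m := 2 * (2 * k * (14 * k) + 14 * k + 2 * k + 1) with hm
  induction X using Finset.strongInduction with
  | H X ih =>
    by_cases hX : X.card ≤ m
    · have h1 : tw H X ≤ X.card * X.card := by
        unfold tw
        refine (sum_le_card_nsmul _ _ X.card fun v _ => card_le_card fun u hu =>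
          (mem_nb.1 hu).1).trans ?_
        rw [smul_eq_mul]
      have h2 : X.card * X.card ≤ m ^ 2 := by
        rw [sq]
        exact Nat.mul_le_mul hX hX
      omega
    · by_cases hv : ∃ v ∈ X, (nb H X v).card ≤ X.card / 2
      · obtain ⟨v, hv, hvd⟩ := hv
        have h1 := tw_erase H X v hv
        have h2 := ih (X.erase v) (erase_ssubset hv)
        have h3 : (X.erase v).card = X.card - 1 := card_erase_of_mem hv
        rw [h3] at h2
        have h4 := sq_step X.card (card_pos.2 ⟨v, hv⟩)
        omega
      · exfalso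
        push Not at hv
        obtain ⟨x, -, hx⟩ := core H X k (fun v hv' => hv v hv') (by omega)
        exact h (fan_contained H X k x hx)

theorem ex_fan (k : ℕ) : ∃ C : ℕ, ∀ (V : Type) [Fintype V] (H : SimpleGraph V),
    (fan k).Free H → H.edgeSet.ncard ≤ (Fintype.card V) ^ 2 / 4 + C := by
  refine ⟨(2 * (2 * k * (14 * k) + 14 * k + 2 * k + 1)) ^ 2, fun V _ H h => ?_⟩
  classical
  have h1 := tw_le H k h Finset.univ
  have h2 : tw H Finset.univ = 2 * H.edgeFinset.card := by
    rw [← H.sum_degrees_eq_twice_card_edges]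
    unfold tw
    refine sum_congr rfl fun v _ => ?_
    rw [← H.card_neighborFinset_eq_degree]
    congr 1
    ext u
    rw [mem_nb, SimpleGraph.mem_neighborFinset]
    simp
  have h3 : H.edgeSet.ncard = H.edgeFinset.card := by
    rw [← SimpleGraph.coe_edgeFinset, Set.ncard_coe_finset]
  rw [card_univ] at h1
  omega

end MP_0a9719_co_Fan
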