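import Pool.Agent.Lib.MP_0a9719_co.Crit
import Pool.Agent.Lib.MP_0a9719_co_Fan.FanEx

/-! MP_0a9719_co_Fan, module FanHost: free orientations of the balanced complete `r`-partite graph
plus a star inside one part. In the orientations used at most one edge of the star points away
from its centre. -/

namespace MP_0a9719_co_Fan

open Finset MP_0a9719_co

/-- the complete `r`-partite graph with parts of size `N` plus the star with centre `(i₀, j₀)` and
all other vertices of part `i₀` as leaves. -/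
def host (r N : ℕ) (i₀ : Fin r) (j₀ : Fin N) : SimpleGraph (Fin r × Fin N) where
  Adj u v := u.1 ≠ v.1 ∨ (u.1 = i₀ ∧ v.1 = i₀ ∧ u ≠ v ∧ (u = (i₀, j₀) ∨ v = (i₀, j₀)))
  symm := ⟨by
    rintro u v (h | ⟨h1, h2, h3, h4⟩)
    · exact Or.inl h.symm
    · exact Or.inr ⟨h2, h1, h3.symm, h4.symm⟩⟩
  loopless := ⟨by
    rintro u (h | ⟨-, -, h, -⟩)
    · exact h rfl
    · exact h rfl⟩

/-- the orientation given by an orientation of the complete multipartite graph and the leaf
`(i₀, t)` of the star which receives an edge from the centre (no leaf if `t = j₀`). -/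
def hor {r N : ℕ} (i₀ : Fin r) (j₀ : Fin N) (t : Fin N) (D : Fin r × Fin N → Fin r × Fin N → Prop) :
    Fin r × Fin N → Fin r × Fin N → Prop :=
  fun u v => (u.1 ≠ v.1 ∧ D u v) ∨
    (u.1 = i₀ ∧ v.1 = i₀ ∧ u ≠ v ∧ ((v = (i₀, j₀) ∧ u.2 ≠ t) ∨ (u = (i₀, j₀) ∧ v.2 = t)))

theorem hor_isOr {r N : ℕ} (i₀ : Fin r) (j₀ : Fin N) (t : Fin N)
    (D : Fin r × Fin N → Fin r × Fin N → Prop)
    (hD : IsOr (SimpleGraph.completeEquipartiteGraph r N) D) :
    IsOr (host r N i₀ j₀) (hor i₀ j₀ t D) := by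
  intro u v
  by_cases huv : u.1 = v.1
  · constructor
    · constructor
      · rintro (h | ⟨h1, h2, h3, h4⟩)
        · exact absurd huv h
        · rcases h4 with h4 | h4
          · by_cases ht : v.2 = t
            · exact Or.inl (Or.inr ⟨h1, h2, h3, Or.inr ⟨h4, ht⟩⟩)
            · exact Or.inr (Or.inr ⟨h2, h1, h3.symm, Or.inl ⟨h4, ht⟩⟩)
          · by_cases ht : u.2 = t
            · exact Or.inr (Or.inr ⟨h2, h1, h3.symm, Or.inr ⟨h4, ht⟩⟩)
            · exact Or.inl (Or.inr ⟨h1, h2, h3, Or.inl ⟨h4, ht⟩⟩)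
      · rintro ((⟨h, -⟩ | ⟨h1, h2, h3, h4⟩) | (⟨h, -⟩ | ⟨h1, h2, h3, h4⟩))
        · exact absurd huv h
        · exact Or.inr ⟨h1, h2, h3, h4.symm.imp And.left And.left⟩
        · exact absurd huv.symm h
        · exact Or.inr ⟨h2, h1, h3.symm, h4.imp And.left And.left⟩
    · rintro ⟨⟨h, -⟩ | ⟨h1, h2, h3, h4⟩, ⟨h', -⟩ | ⟨h1', h2', h3', h4'⟩⟩
      · exact h huv
      · exact h huv
      · exact h' huv.symm
      · rcases h4 with ⟨h5, h6⟩ | ⟨h5, h6⟩ <;> rcases h4' with ⟨h7, h8⟩ | ⟨h7, h8⟩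
        · exact h3 (h7.trans h5.symm)
        · exact h6 h8
        · exact h8 h6
        · exact h3 (h5.trans h7.symm)
  · have h1 := hD u v
    rw [SimpleGraph.completeEquipartiteGraph_adj] at h1
    constructor
    · constructor
      · intro _
        rcases h1.1.1 huv with h | h
        · exact Or.inl (Or.inl ⟨huv, h⟩)
        · exact Or.inr (Or.inl ⟨fun h2 => huv h2.symm, h⟩)
      · exact fun _ => Or.inl huv
    · rintro ⟨⟨-, h⟩ | ⟨h2, h3, -⟩, ⟨-, h'⟩ | ⟨h2', h3', -⟩⟩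
      · exact h1.2 ⟨h, h'⟩
      · exact huv (h3'.trans h2'.symm)
      · exact huv (h2.trans h3.symm)
      · exact huv (h2.trans h3.symm)

theorem hor_free {W : Type*} [Nonempty W] {r N : ℕ} (i₀ : Fin r) (j₀ : Fin N) (t : Fin N)
    (D : Fin r × Fin N → Fin r × Fin N → Prop) (F : SimpleGraph W) (A : W → W → Prop)
    (hA : IsOr F A)
    (hstar : ∀ (c : W) (φ : W → Fin r), (∀ u v, F.Adj u v → φ u = φ v → u = c ∨ v = c) →
      ∃ y z, y ≠ z ∧ A c y ∧ A c z ∧ φ y = φ c ∧ φ z = φ c) :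
    ¬ Contains A (hor i₀ j₀ t D) := by
  rintro ⟨f, hf, hfA⟩
  have hmono : ∀ u v, F.Adj u v → (f u).1 = (f v).1 → f u = (i₀, j₀) ∨ f v = (i₀, j₀) := by
    intro u v huv h
    rcases (hA u v).1.1 huv with h1 | h1
    · rcases hfA _ _ h1 with h2 | ⟨-, -, -, h2⟩
      · exact absurd h h2.1
      · rcases h2 with h2 | h2
        · exact Or.inr h2.1
        · exact Or.inl h2.1
    · rcases hfA _ _ h1 with h2 | ⟨-, -, -, h2⟩
      · exact absurd h.symm h2.1
      · rcases h2 with h2 | h2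
        · exact Or.inl h2.1
        · exact Or.inr h2.1
  have hex : ∃ c : W, ∀ u v, F.Adj u v → (f u).1 = (f v).1 → u = c ∨ v = c := by
    by_cases hc : ∃ c, f c = (i₀, j₀)
    · obtain ⟨c, hc⟩ := hc
      refine ⟨c, fun u v huv h => ?_⟩
      rcases hmono u v huv h with h1 | h1
      · exact Or.inl (hf (h1.trans hc.symm))
      · exact Or.inr (hf (h1.trans hc.symm))
    · refine ⟨Classical.arbitrary W, fun u v huv h => ?_⟩
      rcases hmono u v huv h with h1 | h1
      · exact absurd ⟨u, h1⟩ hc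
      · exact absurd ⟨v, h1⟩ hc
  obtain ⟨c, hc⟩ := hex
  obtain ⟨y, z, hyz, hy, hz, hφy, hφz⟩ := hstar c (fun w => (f w).1) hc
  have key : ∀ y, A c y → (f y).1 = (f c).1 → f y = (i₀, t) ∨ f y = (i₀, j₀) := by
    intro y hy h
    rcases hfA _ _ hy with h1 | ⟨h1, h2, h3, h4⟩
    · exact absurd h.symm h1.1
    · rcases h4 with h4 | h4
      · exact Or.inr h4.1
      · exact Or.inl (Prod.ext h2 h4.2)
  -- the centre of the star is the image of `c`
  have hcx : f c = (i₀, j₀) := by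
    by_contra hne
    have h1 : f y = (i₀, j₀) := by
      rcases hfA _ _ hy with h1 | ⟨-, -, -, h4⟩
      · exact absurd hφy.symm h1.1
      · rcases h4 with h4 | h4
        · exact h4.1
        · exact absurd h4.1 hne
    have h2 : f z = (i₀, j₀) := by
      rcases hfA _ _ hz with h1 | ⟨-, -, -, h4⟩
      · exact absurd hφz.symm h1.1
      · rcases h4 with h4 | h4
        · exact h4.1
        · exact absurd h4.1 hne
    exact hyz (hf (h1.trans h2.symm))
  have hnc : ∀ y, A c y → (f y).1 = (f c).1 → f y = (i₀, t) := by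
    intro y hy h
    rcases hfA _ _ hy with h1 | ⟨h1, h2, h3, h4⟩
    · exact absurd h.symm h1.1
    · rcases h4 with h4 | h4
      · exact absurd (hcx.trans h4.1.symm) h3
      · exact Prod.ext h2 h4.2
  exact hyz (hf ((hnc y hy hφy).trans (hnc z hz hφz).symm))

theorem numFree_host {W : Type*} [Nonempty W] (r N : ℕ) (i₀ : Fin r) (j₀ : Fin N)
    (F : SimpleGraph W) (A : W → W → Prop) (hA : IsOr F A)
    (hstar : ∀ (c : W) (φ : W → Fin r), (∀ u v, F.Adj u v → φ u = φ v → u = c ∨ v = c) →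
      ∃ y z, y ≠ z ∧ A c y ∧ A c z ∧ φ y = φ c ∧ φ z = φ c) :
    N * 2 ^ (r.choose 2 * N ^ 2) ≤ numFree A (host r N i₀ j₀) := by
  classical
  set K := SimpleGraph.completeEquipartiteGraph r N with hK
  have hKe : K.edgeSet.ncard = r.choose 2 * N ^ 2 := by
    rw [← SimpleGraph.card_edgeFinset_completeEquipartiteGraph, ← SimpleGraph.coe_edgeFinset,
      Set.ncard_coe_finset]
  set S : Set (Fin N × (Fin r × Fin N → Fin r × Fin N → Prop)) :=
    Set.univ ×ˢ {D | IsOr K D} with hS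
  have hSc : S.ncard = N * 2 ^ (r.choose 2 * N ^ 2) := by
    rw [hS, Set.ncard_prod, ncard_or, hKe, Set.ncard_univ, Nat.card_eq_fintype_card,
      Fintype.card_fin]
  rw [← hSc]
  unfold numFree
  have hinj : Set.InjOn (fun p : Fin N × (Fin r × Fin N → Fin r × Fin N → Prop) =>
      hor i₀ j₀ p.1 p.2) S := by
    rintro ⟨t, D⟩ ⟨-, hD⟩ ⟨t', D'⟩ ⟨-, hD'⟩ h
    simp only at h hD hD'
    have h1 : ∀ u v, hor i₀ j₀ t D u v ↔ hor i₀ j₀ t' D' u v := by
      intro u v
      rw [h]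
    have hDD : D = D' := by
      funext u v
      apply propext
      have h2 : ∀ (D : Fin r × Fin N → Fin r × Fin N → Prop), IsOr K D → D u v → u.1 ≠ v.1 :=
        fun D hD h3 => (hD u v).1.2 (Or.inl h3)
      have h4 : ∀ (t t' : Fin N) (D D' : Fin r × Fin N → Fin r × Fin N → Prop), IsOr K D →
          (∀ u v, hor i₀ j₀ t D u v ↔ hor i₀ j₀ t' D' u v) → D u v → D' u v := by
        intro t t' D D' hD h1 h5
        have h6 := h2 D hD h5
        rcases (h1 u v).1 (Or.inl ⟨h6, h5⟩) with h7 | h7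
        · exact h7.2
        · exact absurd (h7.1.trans h7.2.1.symm) h6
      exact ⟨h4 t t' D D' hD h1, h4 t' t D' D hD' (fun u v => (h1 u v).symm)⟩
    have htt : ∀ (t t' : Fin N) (D D' : Fin r × Fin N → Fin r × Fin N → Prop),
        (∀ u v, hor i₀ j₀ t D u v ↔ hor i₀ j₀ t' D' u v) → t ≠ j₀ → t = t' := by
      intro t t' D D' h1 ht
      have h2 : hor i₀ j₀ t D (i₀, j₀) (i₀, t) :=
        Or.inr ⟨rfl, rfl, fun h3 => ht (congrArg Prod.snd h3).symm, Or.inr ⟨rfl, rfl⟩⟩
      rcases (h1 _ _).1 h2 with h3 | ⟨-, -, h3, h4⟩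
      · exact absurd rfl h3.1
      · rcases h4 with h4 | h4
        · exact absurd h4.1.symm h3
        · exact h4.2
    have ht : t = t' := by
      by_cases h5 : t = j₀
      · by_cases h6 : t' = j₀
        · exact h5.trans h6.symm
        · exact (htt t' t D' D (fun u v => (h1 u v).symm) h6).symm
      · exact htt t t' D D' h1 h5
    rw [ht, hDD]
  rw [← hinj.ncard_image]
  refine Set.ncard_le_ncard ?_ (Set.toFinite _)
  rintro _ ⟨⟨t, D⟩, ⟨-, hD⟩, rfl⟩
  exact ⟨hor_isOr i₀ j₀ t D hD, hor_free i₀ j₀ t D F A hA hstar⟩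

theorem crit_or {W : Type*} [Nonempty W] (F : SimpleGraph W) (A : W → W → Prop) (hA : IsOr F A)
    (r : ℕ) (hr : 1 ≤ r)
    (hstar : ∀ (c : W) (φ : W → Fin r), (∀ u v, F.Adj u v → φ u = φ v → u = c ∨ v = c) →
      ∃ y z, y ≠ z ∧ A c y ∧ A c z ∧ φ y = φ c ∧ φ z = φ c)
    (hex : ∀ n₀ : ℕ, ∃ N, n₀ ≤ N ∧ 2 ^ SimpleGraph.extremalNumber (r * N) F <
      N * 2 ^ (r.choose 2 * N ^ 2)) : PropertyP F := by
  refine criterion F A hA fun n₀ => ?_
  obtain ⟨N, hN, hlt⟩ := hex (n₀ + 1)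
  refine ⟨r * N, ?_, Fin r × Fin N, inferInstance, host r N ⟨0, hr⟩ ⟨0, by omega⟩, ?_, Or.inr ?_⟩
  · calc n₀ ≤ N := by omega
      _ = 1 * N := (one_mul N).symm
      _ ≤ r * N := Nat.mul_le_mul_right _ hr
  · rw [Fintype.card_prod, Fintype.card_fin, Fintype.card_fin]
  · intro H' hH'
    classical
    have h1 : H'.edgeSet.ncard ≤ SimpleGraph.extremalNumber (r * N) F := by
      have h2 := SimpleGraph.card_edgeFinset_le_extremalNumber hH'
      rw [Fintype.card_prod, Fintype.card_fin, Fintype.card_fin] at h2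
      refine le_trans (le_of_eq ?_) h2
      rw [← SimpleGraph.coe_edgeFinset, Set.ncard_coe_finset]
    exact lt_of_lt_of_le (lt_of_le_of_lt (Nat.pow_le_pow_right (by norm_num) h1) hlt)
      (numFree_host r N _ _ F A hA hstar)

end MP_0a9719_co_Fan
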