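import Mathlib

/-! MP_0a9719_co_Fan, module FanMat: matchings inside a vertex set, greedy lemma, and the
minimum degree lemma for friendship graphs: a graph with `n` vertices and all degrees at least
`⌊n/2⌋ + 1` has a vertex whose neighbourhood contains a matching with `k` edges, if `n` is large
in terms of `k`. -/

namespace MP_0a9719_co_Fan

open Finset

variable {V : Type*} [DecidableEq V]

/-- `S` contains `k` pairwise disjoint edges of `H`. -/
def HasMat (H : SimpleGraph V) (S : Finset V) (k : ℕ) : Prop :=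
  ∃ f : Fin k × Bool → V, Function.Injective f ∧ (∀ p, f p ∈ S) ∧
    ∀ i, H.Adj (f (i, false)) (f (i, true))

theorem greedy (H : SimpleGraph V) (S : Finset V) (k : ℕ)
    (h : ∀ U : Finset V, U.card ≤ 2 * k → ∃ a b, a ∈ S ∧ b ∈ S ∧ a ∉ U ∧ b ∉ U ∧ H.Adj a b) :
    HasMat H S k := by
  have key : ∀ j, j ≤ k → HasMat H S j := by
    intro j
    induction j with
    | zero => exact fun _ => ⟨fun p => p.1.elim0, fun p => p.1.elim0, fun p => p.1.elim0,
        fun i => i.elim0⟩
    | succ j ih =>
      intro hj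
      obtain ⟨f, hf, hfS, hfA⟩ := ih (by omega)
      obtain ⟨a, b, ha, hb, haU, hbU, hab⟩ := h (univ.image f) (by
        refine card_image_le.trans ?_
        rw [card_univ, Fintype.card_prod, Fintype.card_fin, Fintype.card_bool]
        omega)
      have haf : ∀ p, f p ≠ a := fun p hp => haU (mem_image.2 ⟨p, mem_univ _, hp⟩)
      have hbf : ∀ p, f p ≠ b := fun p hp => hbU (mem_image.2 ⟨p, mem_univ _, hp⟩)
      refine ⟨fun p => if hp : p.1.val < j then f (⟨p.1.val, hp⟩, p.2) else
        (if p.2 then b else a), ?_, ?_, ?_⟩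
      · rintro ⟨i, c⟩ ⟨i', c'⟩ hpq
        simp only at hpq
        split_ifs at hpq with h1 h2 h3 h4 h5 h6 h7
        all_goals first
          | (have h8 := hf hpq
             simp only [Prod.mk.injEq, Fin.mk.injEq] at h8
             exact Prod.ext (Fin.ext h8.1) h8.2)
          | exact absurd hpq (haf _)
          | exact absurd hpq (hbf _)
          | exact absurd hpq.symm (haf _)
          | exact absurd hpq.symm (hbf _)
          | exact absurd hpq hab.ne
          | exact absurd hpq.symm hab.ne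
          | (have h8 := i.isLt
             have h9 := i'.isLt
             have h10 : i = i' := Fin.ext (by omega)
             subst h10
             have h11 : c = c' := by simp_all
             rw [h11])
      · rintro ⟨i, c⟩
        simp only
        split_ifs
        · exact hfS _
        · exact hb
        · exact ha
      · intro i
        by_cases h1 : i.val < j
        · simp only [h1, dite_true]
          exact hfA _
        · simpa [h1] using hab
  exact key k le_rfl

/-- the neighbours of `v` in `X`. -/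
noncomputable def nb {V : Type*} (H : SimpleGraph V) (X : Finset V) (v : V) : Finset V := by
  classical exact X.filter (H.Adj v)

omit [DecidableEq V] in
theorem mem_nb {H : SimpleGraph V} {X : Finset V} {v u : V} : u ∈ nb H X v ↔ u ∈ X ∧ H.Adj v u := by
  classical
  simp [nb]

theorem final (H : SimpleGraph V) (X P Q : Finset V) (k D : ℕ)
    (hPX : P ⊆ X) (hQX : Q ⊆ X) (hcov : ∀ x ∈ X, x ∈ P ∨ x ∈ Q)
    (hdeg : ∀ v ∈ X, X.card / 2 + 1 ≤ (nb H X v).card)
    (hP : P.card ≤ X.card / 2) (hQ : X.card / 2 ≤ Q.card)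
    (hDQ : ∀ y ∈ Q, (nb H Q y).card ≤ D)
    (hbig : 2 * k * D + D + 2 * k + 1 ≤ X.card / 2) :
    ∃ x ∈ X, HasMat H (nb H X x) k := by
  have hsplit : ∀ y, (nb H X y).card ≤ (nb H P y).card + (nb H Q y).card := by
    intro y
    refine le_trans (card_le_card (t := nb H P y ∪ nb H Q y) ?_) (card_union_le _ _)
    intro u hu
    rw [mem_nb] at hu
    rw [mem_union, mem_nb, mem_nb]
    rcases hcov u hu.1 with h | h
    · exact Or.inl ⟨h, hu.2⟩
    · exact Or.inr ⟨h, hu.2⟩
  have hPsub : ∀ y, (nb H P y).card ≤ P.card := fun y =>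
    card_le_card (fun u hu => (mem_nb.1 hu).1)
  have hQnb : ∀ y ∈ Q, ∃ z ∈ Q, H.Adj y z := by
    intro y hy
    have h1 := hdeg y (hQX hy)
    have h2 := hsplit y
    have h3 := hPsub y
    have h4 : 0 < (nb H Q y).card := by omega
    obtain ⟨z, hz⟩ := card_pos.1 h4
    exact ⟨z, (mem_nb.1 hz).1, (mem_nb.1 hz).2⟩
  have hmat : HasMat H Q k := by
    refine greedy H Q k fun U hU => ?_
    set bad : Finset V := U ∪ U.biUnion (fun u => if u ∈ Q then nb H Q u else ∅) with hbad
    have hbc : bad.card ≤ 2 * k + 2 * k * D := by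
      refine (card_union_le _ _).trans (Nat.add_le_add hU ?_)
      refine card_biUnion_le.trans ?_
      refine (sum_le_card_nsmul _ _ D ?_).trans ?_
      · intro u _
        split_ifs with h
        · exact hDQ u h
        · simp
      · rw [smul_eq_mul]
        exact Nat.mul_le_mul_right _ hU
    have hlt : bad.card < Q.card := by omega
    obtain ⟨y, hyQ, hyb⟩ := exists_mem_notMem_of_card_lt_card hlt
    obtain ⟨z, hzQ, hyz⟩ := hQnb y hyQ
    refine ⟨y, z, hyQ, hzQ, fun hyU => hyb (mem_union_left _ hyU), fun hzU => hyb ?_, hyz⟩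
    refine mem_union_right _ (mem_biUnion.2 ⟨z, hzU, ?_⟩)
    rw [if_pos hzQ, mem_nb]
    exact ⟨hyQ, hyz.symm⟩
  obtain ⟨f, hf, hfQ, hfA⟩ := hmat
  have hmiss : ∀ p, (P \ nb H P (f p)).card ≤ D := by
    intro p
    have h1 := hdeg (f p) (hQX (hfQ p))
    have h2 := hsplit (f p)
    have h3 := hDQ (f p) (hfQ p)
    have h4 : (P \ nb H P (f p)).card = P.card - (nb H P (f p)).card :=
      card_sdiff_of_subset (fun u hu => (mem_nb.1 hu).1)
    omega
  have hPbig : 2 * k * D < P.card := by
    obtain ⟨y, hy⟩ : Q.Nonempty := card_pos.1 (by omega)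
    have h1 := hdeg y (hQX hy)
    have h2 := hsplit y
    have h3 := hDQ y hy
    have h4 := hPsub y
    omega
  have hlt : (univ.biUnion (fun p : Fin k × Bool => P \ nb H P (f p))).card < P.card := by
    refine lt_of_le_of_lt ?_ hPbig
    refine card_biUnion_le.trans ?_
    refine (sum_le_card_nsmul _ _ D (fun p _ => hmiss p)).trans ?_
    rw [smul_eq_mul, card_univ, Fintype.card_prod, Fintype.card_fin, Fintype.card_bool]
    exact Nat.mul_le_mul_right _ (by omega)
  obtain ⟨x, hxP, hxb⟩ := exists_mem_notMem_of_card_lt_card hlt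
  refine ⟨x, hPX hxP, f, hf, fun p => ?_, hfA⟩
  have h1 : x ∈ nb H P (f p) := by
    by_contra hcon
    exact hxb (mem_biUnion.2 ⟨p, mem_univ _, mem_sdiff.2 ⟨hxP, hcon⟩⟩)
  rw [mem_nb]
  exact ⟨hQX (hfQ p), (mem_nb.1 h1).2.symm⟩

theorem core (H : SimpleGraph V) (X : Finset V) (k : ℕ)
    (hdeg : ∀ v ∈ X, X.card / 2 + 1 ≤ (nb H X v).card)
    (hbig : 2 * k * (14 * k) + 14 * k + 2 * k + 1 ≤ X.card / 2) :
    ∃ x ∈ X, HasMat H (nb H X x) k := by
  by_contra hcon
  push Not at hcon
  have hU : ∀ x, ∃ U : Finset V, U.card ≤ 2 * k ∧ (x ∈ X → ∀ a b, a ∈ nb H X x → b ∈ nb H X x →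
      a ∉ U → b ∉ U → ¬ H.Adj a b) := by
    intro x
    by_cases hx : x ∈ X
    · have h1 := hcon x hx
      have h2 := mt (greedy H (nb H X x) k) h1
      push Not at h2
      obtain ⟨U, hU, hU2⟩ := h2
      exact ⟨U, hU, fun _ a b ha hb h3 h4 => hU2 a b ha hb h3 h4⟩
    · exact ⟨∅, by simp, fun h => absurd h hx⟩
  choose U hUc hUe using hU
  obtain ⟨v, hv⟩ : X.Nonempty := card_pos.1 (by omega)
  have hlt : (U v).card < (nb H X v).card := by
    have h1 := hdeg v hv
    have h2 := hUc v
    omega
  obtain ⟨w, hwN, hwU⟩ := exists_mem_notMem_of_card_lt_card hlt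
  have hw : w ∈ X := (mem_nb.1 hwN).1
  have hvw : H.Adj v w := (mem_nb.1 hwN).2
  set A := nb H X w with hA
  set B := nb H X v with hB
  have hAX : A ⊆ X := fun u hu => (mem_nb.1 hu).1
  have hBX : B ⊆ X := fun u hu => (mem_nb.1 hu).1
  have hABi : (A ∩ B).card ≤ 2 * k := by
    refine (card_le_card (fun z hz => ?_)).trans (hUc v)
    by_contra hzU
    rw [mem_inter] at hz
    exact hUe v hv w z hwN hz.2 hwU hzU (mem_nb.1 hz.1).2
  have hunion := card_union_add_card_inter A B
  have hunionX : (A ∪ B).card ≤ X.card := card_le_card (union_subset hAX hBX)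
  have hAc : X.card / 2 + 1 ≤ A.card := hdeg w hw
  have hBc : X.card / 2 + 1 ≤ B.card := hdeg v hv
  have hout : (X \ (A ∪ B)).card ≤ 2 * k := by
    rw [card_sdiff_of_subset (union_subset hAX hBX)]
    omega
  -- symmetric statements for the two sides
  have side : ∀ (A B : Finset V) (w : V), w ∈ X → A = nb H X w → A ⊆ X → B ⊆ X →
      A.card + B.card ≤ X.card + 2 * k → X.card / 2 + 1 ≤ A.card →
      (X \ (A ∪ B)).card ≤ 2 * k → ∀ a ∈ A, a ∉ U w →
      X.card / 2 + 1 ≤ (nb H B a).card + 4 * k ∧ (B \ nb H B a).card ≤ 6 * k := by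
    intro A B w hw hA hAX hBX hsum hAc hout a ha haU
    have h1 : (nb H A a).card ≤ 2 * k := by
      refine (card_le_card (fun z hz => ?_)).trans (hUc w)
      by_contra hzU
      rw [mem_nb] at hz
      exact hUe w hw a z (hA ▸ ha) (hA ▸ hz.1) haU hzU hz.2
    have h2 : (nb H X a).card ≤ (nb H A a).card + (nb H B a).card + (X \ (A ∪ B)).card := by
      have h3 : nb H X a ⊆ (nb H A a ∪ nb H B a) ∪ (X \ (A ∪ B)) := by
        intro u hu
        rw [mem_nb] at hu
        rw [mem_union, mem_union, mem_nb, mem_nb, mem_sdiff, mem_union]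
        by_cases h4 : u ∈ A
        · exact Or.inl (Or.inl ⟨h4, hu.2⟩)
        · by_cases h5 : u ∈ B
          · exact Or.inl (Or.inr ⟨h5, hu.2⟩)
          · exact Or.inr ⟨hu.1, fun h6 => h6.elim h4 h5⟩
      refine (card_le_card h3).trans ((card_union_le _ _).trans ?_)
      exact Nat.add_le_add_right (card_union_le _ _) _
    have h3 := hdeg a (hAX ha)
    have h4 : (B \ nb H B a).card = B.card - (nb H B a).card :=
      card_sdiff_of_subset (fun u hu => (mem_nb.1 hu).1)
    constructor
    · omega
    · omega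
  have hsA := side A B w hw hA hAX hBX (by omega) hAc hout
  have hsB := side B A v hv hB hBX hAX (by omega) hBc (by rwa [union_comm])
  -- no vertex has many neighbours on both sides
  have hnot : ∀ x ∈ X, (nb H A x).card ≤ 10 * k ∨ (nb H B x).card ≤ 10 * k := by
    intro x hx
    by_contra hcon2
    push Not at hcon2
    refine hcon x hx (greedy H _ k fun W hW => ?_)
    have h1 : (W ∪ U w).card < (nb H A x).card := by
      have := card_union_le W (U w)
      have := hUc w
      omega
    obtain ⟨a, haN, haW⟩ := exists_mem_notMem_of_card_lt_card h1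
    have haA : a ∈ A := (mem_nb.1 haN).1
    rw [mem_union, not_or] at haW
    have h2 := (hsA a haA haW.2).2
    have h3 : (W ∪ (B \ nb H B a)).card < (nb H B x).card := by
      have := card_union_le W (B \ nb H B a)
      omega
    obtain ⟨b, hbN, hbW⟩ := exists_mem_notMem_of_card_lt_card h3
    rw [mem_union, not_or] at hbW
    have hbB : b ∈ B := (mem_nb.1 hbN).1
    have hab : H.Adj a b := by
      by_contra h4
      exact hbW.2 (mem_sdiff.2 ⟨hbB, fun h5 => h4 (mem_nb.1 h5).2⟩)
    exact ⟨a, b, mem_nb.2 ⟨hAX haA, (mem_nb.1 haN).2⟩, mem_nb.2 ⟨hBX hbB, (mem_nb.1 hbN).2⟩,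
      haW.1, hbW.1, hab⟩
  classical
  set A' := X.filter (fun x => (nb H A x).card ≤ 10 * k) with hA'
  set B' := X.filter (fun x => ¬ (nb H A x).card ≤ 10 * k) with hB'
  have hcard : A'.card + B'.card = X.card := card_filter_add_card_filter_not _
  have hB'B : ∀ x ∈ B', (nb H B x).card ≤ 10 * k := by
    intro x hx
    rw [hB', mem_filter] at hx
    exact (hnot x hx.1).resolve_left hx.2
  have hA'd : (A' \ A).card ≤ 4 * k := by
    have h1 : A' \ A ⊆ (X \ (A ∪ B)) ∪ U v := by
      intro u hu
      rw [mem_sdiff, hA', mem_filter] at hu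
      rw [mem_union]
      by_cases h2 : u ∈ B
      · right
        by_contra h3
        have h4 := (hsB u h2 h3).1
        omega
      · left
        exact mem_sdiff.2 ⟨hu.1.1, fun h3 => (mem_union.1 h3).elim hu.2 h2⟩
    refine (card_le_card h1).trans ((card_union_le _ _).trans ?_)
    have := hUc v
    omega
  have hB'd : (B' \ B).card ≤ 4 * k := by
    have h1 : B' \ B ⊆ (X \ (A ∪ B)) ∪ U w := by
      intro u hu
      rw [mem_sdiff] at hu
      have hu1 := hB'B u hu.1
      have hu2 := hu.1
      rw [hB', mem_filter] at hu2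
      rw [mem_union]
      by_cases h2 : u ∈ A
      · right
        by_contra h3
        have h4 := (hsA u h2 h3).1
        omega
      · left
        exact mem_sdiff.2 ⟨hu2.1, fun h3 => (mem_union.1 h3).elim h2 hu.2⟩
    refine (card_le_card h1).trans ((card_union_le _ _).trans ?_)
    have := hUc w
    omega
  have hinA : ∀ x ∈ A', (nb H A' x).card ≤ 14 * k := by
    intro x hx
    have h1 : nb H A' x ⊆ nb H A x ∪ (A' \ A) := by
      intro u hu
      rw [mem_nb] at hu
      rw [mem_union]
      by_cases h2 : u ∈ A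
      · exact Or.inl (mem_nb.2 ⟨h2, hu.2⟩)
      · exact Or.inr (mem_sdiff.2 ⟨hu.1, h2⟩)
    have h2 := (card_le_card h1).trans (card_union_le _ _)
    have h3 : (nb H A x).card ≤ 10 * k := (mem_filter.1 hx).2
    omega
  have hinB : ∀ x ∈ B', (nb H B' x).card ≤ 14 * k := by
    intro x hx
    have h1 : nb H B' x ⊆ nb H B x ∪ (B' \ B) := by
      intro u hu
      rw [mem_nb] at hu
      rw [mem_union]
      by_cases h2 : u ∈ B
      · exact Or.inl (mem_nb.2 ⟨h2, hu.2⟩)
      · exact Or.inr (mem_sdiff.2 ⟨hu.1, h2⟩)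
    have h2 := (card_le_card h1).trans (card_union_le _ _)
    have h3 := hB'B x hx
    omega
  have hcov : ∀ x ∈ X, x ∈ A' ∨ x ∈ B' := by
    intro x hx
    by_cases h : (nb H A x).card ≤ 10 * k
    · exact Or.inl (mem_filter.2 ⟨hx, h⟩)
    · exact Or.inr (mem_filter.2 ⟨hx, h⟩)
  have hex : ∃ x ∈ X, HasMat H (nb H X x) k := by
    rcases le_total A'.card B'.card with h | h
    · exact final H X A' B' k (14 * k) (filter_subset _ _) (filter_subset _ _) hcov hdeg
        (by omega) (by omega) hinB hbig
    · exact final H X B' A' k (14 * k) (filter_subset _ _) (filter_subset _ _)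
        (fun x hx => (hcov x hx).symm) hdeg (by omega) (by omega) hinA hbig
  obtain ⟨x, hx, hx2⟩ := hex
  exact hcon x hx hx2

end MP_0a9719_co_Fan
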